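import Pool.Agent.MP_e848aa_gt.Closed.Omega

/-!
Subsets of the range with at most aleph omega points.
-/

namespace Pool.Agent.MP_e848aa_gt.Closed

open Set Cardinal
open Pool.Agent.MP_e848aa_gt.FreeSet

universe u v w

/-- Small subsets lie in coverable closed sets. -/
theorem coverable_of_lt {X : Type u} {Y : Type v} [TopologicalSpace X] [TopologicalSpace Y]
    (hX : Metalindelof X) {f : X → Y} (hf : ClosedMapping f) (𝒰 : Set (Set Y))
    (h𝒰 : OpenCover 𝒰) (k : ℕ) (A : Set Y) (hA : #A ≤ ℵ_ (k : Ordinal.{v})) :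
    Coverable 𝒰 A := by
  classical
  have hU : ∀ y, ∃ U ∈ 𝒰, y ∈ U := by
    intro y
    have hy : y ∈ ⋃₀ 𝒰 := by rw [h𝒰.2]; trivial
    exact hy
  choose U hU𝒰 hyU using hU
  obtain ⟨O, o1, o2, o3, o4⟩ := hX.shrink (ι := Y) (fun s => f ⁻¹' (U s))
    (fun s => (h𝒰.1 _ (hU𝒰 s)).preimage hf.continuous) (fun x => ⟨f x, hyU (f x)⟩)
  choose g hg using hf.surjective
  let E : Y → Set Y := fun y => {z | ∀ x, f x = z → x ∈ ⋃ (s : Y) (_ : y ∈ U s), O s}
  have hE : ∀ y, IsOpen (E y) := fun y =>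
    isOpen_kern hf.isClosedMap (isOpen_iUnion fun s => isOpen_iUnion fun _ => o1 s)
  have hEy : ∀ y, y ∈ E y := by
    intro y x hx
    obtain ⟨s, hs⟩ := o3 x
    have h1 : f x ∈ U s := o2 s hs
    rw [hx] at h1
    simp only [mem_iUnion]
    exact ⟨s, h1, hs⟩
  let F : Finset Y → Set Y := fun B => ⋃ z ∈ B, {s | g z ∈ O s}
  have hF : ∀ B, (F B).Countable := fun B =>
    Set.Countable.biUnion B.countable_toSet fun z _ => o4 (g z)
  let Z : Set Y := fcl F A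
  have hZ : #Z ≤ ℵ_ (k : Ordinal.{v}) := mk_fcl_le hF (Cardinal.aleph0_le_aleph _) hA
  have hZc : ∀ z ∈ Z, ∀ s, g z ∈ O s → s ∈ Z := by
    intro z hz s hs
    refine fclosed_fcl A {z} (by simpa using hz) ?_
    simp only [F, Finset.mem_singleton, iUnion_iUnion_eq_left, mem_ofPred_eq]
    exact hs
  let H : Set Y := (⋃ (y : Y) (_ : ∀ s ∈ Z, y ∉ U s), E y)ᶜ
  have hH : IsClosed H :=
    (isOpen_iUnion fun y => isOpen_iUnion fun _ => hE y).isClosed_compl
  have hHc : ∀ y ∈ H, ∃ s : Z, y ∈ U s.1 := by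
    intro y hy
    by_contra hcon
    push Not at hcon
    refine hy ?_
    simp only [mem_iUnion]
    exact ⟨y, fun s hs => hcon ⟨s, hs⟩, hEy y⟩
  have hAH : A ⊆ H := by
    intro z hz hcon
    simp only [mem_iUnion] at hcon
    obtain ⟨y, hy, hzy⟩ := hcon
    have h1 := hzy (g z) (hg z)
    simp only [mem_iUnion] at h1
    obtain ⟨s, hs1, hs2⟩ := h1
    exact hy s (hZc z (subset_fcl _ hz) s hs2) hs1
  have hZω : #Z < ℵ_ Ordinal.omega0 :=
    lt_of_le_of_lt hZ (Cardinal.aleph_lt_aleph.mpr (Ordinal.natCast_lt_omega0 _))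
  have h1 := coverable_small hX hf H hH hZω (fun s : Z => U s.1)
    (fun s => h𝒰.1 _ (hU𝒰 s.1)) hHc
  refine (h1.mono_refines ?_).mono_set hAH
  rintro _ ⟨s, rfl⟩
  exact ⟨U s.1, hU𝒰 s.1, subset_rfl⟩

/-- Subsets with at most aleph omega points are coverable. -/
theorem coverable_of_le_aleph_omega {X : Type u} {Y : Type v} [TopologicalSpace X]
    [TopologicalSpace Y] (hX : Metalindelof X) {f : X → Y} (hf : ClosedMapping f)
    (𝒰 : Set (Set Y)) (h𝒰 : OpenCover 𝒰) (A : Set Y) (hA : #A ≤ ℵ_ Ordinal.omega0) :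
    Coverable 𝒰 A := by
  classical
  have hsum : ℵ_ (Ordinal.omega0.{v}) ≤
      #(Σ n : ℕ, (ℵ_ (n : Ordinal.{v})).out) := by
    have h1 : ∀ n : ℕ, ℵ_ (n : Ordinal.{v}) ≤ #(Σ n : ℕ, (ℵ_ (n : Ordinal.{v})).out) := by
      intro n
      rw [← Cardinal.mk_out (ℵ_ (n : Ordinal.{v}))]
      exact Cardinal.mk_le_of_injective (f := fun a : (ℵ_ (n : Ordinal.{v})).out =>
        (⟨n, a⟩ : Σ n : ℕ, (ℵ_ (n : Ordinal.{v})).out))
        (fun a b h => eq_of_heq (Sigma.mk.inj h).2)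
    rw [Cardinal.isNormal_aleph.le_iff_forall_le Ordinal.isSuccLimit_omega0]
    intro a ha
    obtain ⟨n, rfl⟩ := Ordinal.lt_omega0.mp ha
    exact h1 n
  obtain ⟨e⟩ := (Cardinal.le_def _ _).mp (hA.trans hsum)
  have h2 : ∀ n : ℕ, Coverable 𝒰 (Subtype.val '' {a : A | (e a).1 = n}) := by
    intro n
    refine coverable_of_lt hX hf 𝒰 h𝒰 n _ (Cardinal.mk_image_le.trans ?_)
    rw [← Cardinal.mk_out (ℵ_ (n : Ordinal.{v}))]
    have hi : ∀ a : {a : A | (e a).1 = n}, ∃ b : (ℵ_ (n : Ordinal.{v})).out,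
        e a.1 = ⟨n, b⟩ := by
      rintro ⟨a, ha⟩
      rcases hea : e a with ⟨m, b⟩
      have hm : m = n := by
        have : (e a).1 = n := ha
        rw [hea] at this
        exact this
      subst hm
      exact ⟨b, rfl⟩
    choose i hi using hi
    refine Cardinal.mk_le_of_injective (f := i) ?_
    intro a a' haa'
    have h3 : e a.1 = e a'.1 := by rw [hi a, hi a', haa']
    exact Subtype.ext (e.injective h3)
  refine (coverable_iUnion _ h2).mono_set ?_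
  intro y hy
  exact mem_iUnion.mpr ⟨(e ⟨y, hy⟩).1, ⟨y, hy⟩, rfl, rfl⟩

/-- The combined statement: a set with at most aleph omega points, fewer than aleph omega
point-countable families, and closed sets avoiding both. -/
theorem hasPCR_combined {X : Type u} {Y : Type v} [TopologicalSpace X] [TopologicalSpace Y]
    (hX : Metalindelof X) {f : X → Y} (hf : ClosedMapping f) (𝒰 : Set (Set Y))
    (h𝒰 : OpenCover 𝒰) (A : Set Y) (hA : #A ≤ ℵ_ Ordinal.omega0) {ι : Type w}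
    (hι : #ι < ℵ_ Ordinal.omega0) (𝒲 : ι → Set (Set Y)) (ho : ∀ i, ∀ W ∈ 𝒲 i, IsOpen W)
    (hr : ∀ i, Refines (𝒲 i) 𝒰) (hp : ∀ i, PointCountable (𝒲 i))
    (hcl : ∀ H : Set Y, IsClosed H → (∀ y ∈ H, y ∉ A ∧ ∀ i, y ∉ ⋃₀ 𝒲 i) → Coverable 𝒰 H) :
    HasPointCountableOpenRefinement 𝒰 := by
  classical
  obtain ⟨𝒱, v1, v2, v3, v4⟩ := coverable_of_le_aleph_omega hX hf 𝒰 h𝒰 A hA
  obtain ⟨𝒱', w1, w2, w3, w4⟩ := hcl (⋃₀ 𝒱 ∪ ⋃ i, ⋃₀ 𝒲 i)ᶜ
    ((isOpen_sUnion v1).union (isOpen_iUnion fun i => isOpen_sUnion (ho i))).isClosed_compl (by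
      intro y hy
      refine ⟨fun h => hy (Or.inl (v4 h)), fun i h => hy (Or.inr (mem_iUnion.mpr ⟨i, h⟩))⟩)
  have hcard : #(Option (Option ι)) < ℵ_ Ordinal.omega0 := by
    rw [Cardinal.mk_option, Cardinal.mk_option]
    have h1 : (1 : Cardinal.{w}) < ℵ_ Ordinal.omega0 :=
      Cardinal.one_lt_aleph0.trans_le (Cardinal.aleph0_le_aleph _)
    exact Cardinal.add_lt_of_lt (Cardinal.aleph0_le_aleph _)
      (Cardinal.add_lt_of_lt (Cardinal.aleph0_le_aleph _) hι h1) h1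
  have h := coverable_families hX hf Set.univ isClosed_univ hcard
    (fun o : Option (Option ι) => o.elim 𝒱 (fun o' => o'.elim 𝒱' 𝒲)) (by
      intro o W hW
      rcases o with _ | _ | i
      · exact v1 W hW
      · exact w1 W hW
      · exact ho i W hW) (by
      intro o
      rcases o with _ | _ | i
      · exact v3
      · exact w3
      · exact hp i) (by
      intro y _
      by_cases h1 : y ∈ ⋃₀ 𝒱 ∪ ⋃ i, ⋃₀ 𝒲 i
      · rcases h1 with ⟨V, hV, hyV⟩ | h1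
        · exact ⟨V, mem_iUnion.mpr ⟨none, hV⟩, hyV⟩
        · obtain ⟨i, W, hW, hyW⟩ := mem_iUnion.mp h1
          exact ⟨W, mem_iUnion.mpr ⟨some (some i), hW⟩, hyW⟩
      · obtain ⟨V, hV, hyV⟩ := w4 h1
        exact ⟨V, mem_iUnion.mpr ⟨some none, hV⟩, hyV⟩)
  refine hasPCR_of_coverable (h.mono_refines ?_)
  intro W hW
  obtain ⟨o, ho⟩ := mem_iUnion.mp hW
  rcases o with _ | _ | i
  · exact v2 W ho
  · exact w2 W ho
  · exact hr i W ho

end Pool.Agent.MP_e848aa_gt.Closed
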