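import Pool.Agent.MP_e848aa_gt.Defs

/-! The Lindelof number of a subset. -/

open Set Cardinal

namespace Pool.Agent.MP_e848aa_gt

universe u

/-- The subset `S` of `X` has Lindelof number at most `κ`: every family of open subsets of `X`
which covers `S` has a subfamily with at most `κ` members which covers `S`. -/
def LindelofNumberLe {X : Type u} [TopologicalSpace X] (S : Set X) (κ : Cardinal.{u}) : Prop :=
  ∀ 𝒢 : Set (Set X), (∀ G ∈ 𝒢, IsOpen G) → S ⊆ ⋃₀ 𝒢 → ∃ 𝒢' ⊆ 𝒢, #𝒢' ≤ κ ∧ S ⊆ ⋃₀ 𝒢'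

end Pool.Agent.MP_e848aa_gt
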