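import Pool.Agent.MP_e848aa_gt.FreeSet.Defs
import Pool.Agent.MP_e848aa_gt.FreeSet.DCC

/-!
A set without the free set property carries a countable-valued map on its finite subsets
whose closed sets satisfy the descending chain condition.
-/

namespace Pool.Agent.MP_e848aa_gt.Closed

open Set Cardinal
open Pool.Agent.MP_e848aa_gt.FreeSet

universe v

/-- Choice of a finite set with small maximum. -/
theorem exists_small_max {I : Type v} [LinearOrder I] [WellFoundedLT I] (F : Finset I → Set I)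
    (w : I) (b : Finset I) : ∃ a' : Finset I, ∀ a : Finset I, w ∈ F (a ∪ b) →
      w ∈ F (a' ∪ b) ∧ a'.max ≤ a.max := by
  classical
  by_cases h : ∃ a : Finset I, w ∈ F (a ∪ b)
  · have hne : (Finset.max '' {a : Finset I | w ∈ F (a ∪ b)}).Nonempty := by
      obtain ⟨a, ha⟩ := h
      exact ⟨_, a, ha, rfl⟩
    have hwf : WellFounded ((· < ·) : WithBot I → WithBot I → Prop) := wellFounded_lt
    obtain ⟨a', ha', hmax⟩ := hwf.min_mem _ hne
    refine ⟨a', fun a ha => ⟨ha', ?_⟩⟩
    rw [hmax]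
    exact not_lt.mp (hwf.not_lt_min (Finset.max '' {a : Finset I | w ∈ F (a ∪ b)})
      ⟨a, ha, rfl⟩)
  · push Not at h
    exact ⟨∅, fun a ha => absurd ha (h a)⟩

theorem freeSet_of_order {I : Type v} [LinearOrder I] [WellFoundedLT I] (h : ¬ HasDCC I)
    (F : Finset I → Set I) (hF : ∀ A, (F A).Countable) : ∃ γ : ℕ → I, IsInfiniteFree F γ := by
  classical
  choose ch hch using exists_small_max F
  let F' : Finset I → Set I := fun B => F B ∪ ⋃ w ∈ B, ⋃ b ∈ B.powerset, (ch w b : Set I)
  have hF' : ∀ A, (F' A).Countable := fun A =>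
    (hF A).union (Set.Countable.biUnion A.countable_toSet fun w _ =>
      Set.Countable.biUnion (Finset.countable_toSet _) fun b _ => Finset.countable_toSet _)
  have h1 : ∃ M : ℕ → Set I, (∀ n, FClosed F' (M n)) ∧ Antitone M ∧
      ∀ n, ∃ m, n ≤ m ∧ M m ≠ M n := by
    by_contra hcon
    apply h
    refine ⟨F', hF', fun M hM hanti => ?_⟩
    by_contra hcon'
    push Not at hcon'
    exact hcon ⟨M, hM, hanti, hcon'⟩
  obtain ⟨M, hM, hanti, hneq⟩ := h1
  let Mω : Set I := ⋂ n, M n
  have hne : ∀ n, (M n \ Mω).Nonempty := by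
    intro n
    by_contra hcon
    rw [Set.not_nonempty_iff_eq_empty, Set.sdiff_eq_empty] at hcon
    obtain ⟨m, hm, hmn⟩ := hneq n
    exact hmn (Set.Subset.antisymm (hanti hm) (hcon.trans (Set.iInter_subset _ m)))
  have hwf : WellFounded ((· < ·) : I → I → Prop) := wellFounded_lt
  let g : ℕ → I := fun n => hwf.min _ (hne n)
  have hg : ∀ n, g n ∈ M n \ Mω := fun n => hwf.min_mem _ (hne n)
  have hgmin : ∀ n, ∀ i ∈ M n \ Mω, g n ≤ i := fun n i hi => not_lt.mp (hwf.not_lt_min _ hi)
  have hdrop : ∀ n, ∃ m, n < m ∧ g n ∉ M m := by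
    intro n
    have h2 := (hg n).2
    simp only [Mω, Set.mem_iInter, not_forall] at h2
    obtain ⟨m, hm⟩ := h2
    refine ⟨max m (n + 1), lt_of_lt_of_le (Nat.lt_succ_self n) (le_max_right _ _), ?_⟩
    exact fun hcon => hm (hanti (le_max_left _ _) hcon)
  choose nx hnx1 hnx2 using hdrop
  let q : ℕ → ℕ := fun k => nx^[k] 0
  have hq : ∀ k, q (k + 1) = nx (q k) := fun k => Function.iterate_succ_apply' _ _ _
  have hqm : StrictMono q := strictMono_nat_of_lt_succ fun k => by rw [hq]; exact hnx1 _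
  let γ : ℕ → I := fun k => g (q k)
  have hγ1 : ∀ k, γ k ∈ M (q k) := fun k => (hg (q k)).1
  have hγ2 : ∀ k, γ k ∉ M (q (k + 1)) := fun k => by rw [hq]; exact hnx2 _
  have hγlt : StrictMono γ := by
    refine strictMono_nat_of_lt_succ fun k => ?_
    refine lt_of_le_of_ne ?_ ?_
    · refine hgmin (q k) _ ⟨hanti (hqm (Nat.lt_succ_self k)).le (hγ1 (k + 1)), (hg _).2⟩
    · intro hcon
      exact hγ2 k (hcon ▸ hγ1 (k + 1))
  have hbelow : ∀ k, ∀ i ∈ M (q k), i < γ k → i ∈ Mω := by
    intro k i hi hik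
    by_contra hcon
    exact absurd (hgmin (q k) i ⟨hi, hcon⟩) (not_le.mpr hik)
  refine ⟨γ, hγlt.injective, fun n A hA hcon => ?_⟩
  let a : Finset I := A.filter (· < γ n)
  let b : Finset I := A.filter (fun i => ¬ i < γ n)
  have hab : a ∪ b = A := Finset.filter_union_filter_not_eq _ _
  obtain ⟨h3, h4⟩ := hch (γ n) b a (by rw [hab]; exact hcon)
  have hbM : (b : Set I) ⊆ M (q (n + 1)) := by
    intro i hi
    have hi' : i ∈ A ∧ ¬ i < γ n := Finset.mem_filter.mp hi
    obtain ⟨m, hm, rfl⟩ := hA i hi'.1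
    have hnm : n < m := by
      by_contra hc
      exact hi'.2 (hγlt (lt_of_le_of_ne (not_lt.mp hc) hm))
    exact hanti (hqm.monotone hnm) (hγ1 m)
  have ha'lt : ∀ i ∈ ch (γ n) b, i < γ n := by
    intro i hi
    have h5 : (i : WithBot I) ≤ (ch (γ n) b).max := Finset.le_max hi
    have h6 := h5.trans h4
    have h7 : a.max < (γ n : WithBot I) := by
      rw [Finset.max_eq_sup_withBot, Finset.sup_lt_iff (WithBot.bot_lt_coe _)]
      intro j hj
      exact WithBot.coe_lt_coe.mpr (Finset.mem_filter.mp hj).2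
    exact WithBot.coe_lt_coe.mp (lt_of_le_of_lt h6 h7)
  have hsucc : M (q (n + 1)) ⊆ M (q n) := hanti (hqm (Nat.lt_succ_self n)).le
  have ha'M : (ch (γ n) b : Set I) ⊆ M (q n) := by
    refine Set.Subset.trans ?_ (hM (q n) (insert (γ n) b) ?_)
    · intro i hi
      refine Or.inr ?_
      simp only [Set.mem_iUnion]
      exact ⟨γ n, Finset.mem_insert_self _ _, b,
        Finset.mem_powerset.mpr (Finset.subset_insert _ _), hi⟩
    · intro i hi
      rcases Finset.mem_insert.mp hi with rfl | hi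
      · exact hγ1 n
      · exact hsucc (hbM hi)
  have ha'ω : (ch (γ n) b : Set I) ⊆ M (q (n + 1)) := fun i hi =>
    Set.mem_iInter.mp (hbelow n i (ha'M hi) (ha'lt i hi)) _
  refine hγ2 n (hM (q (n + 1)) (ch (γ n) b ∪ b) ?_ (Or.inl h3))
  intro i hi
  rcases Finset.mem_union.mp hi with hi | hi
  · exact ha'ω hi
  · exact hbM hi

/-- Sets without the free set property have the descending chain condition. -/
theorem hasDCC_of_not_freeSetProperty (I : Type v) (h : ¬ FreeSetProperty I) : HasDCC I := by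
  classical
  by_contra hcon
  apply h
  intro F hF
  obtain ⟨r, hr⟩ := exists_wellFoundedLT I
  exact freeSet_of_order hcon F hF

end Pool.Agent.MP_e848aa_gt.Closed
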