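import Pool.Agent.MP_e848aa_gt.Closed.Levels
import Pool.Agent.MP_e848aa_gt.Closed.FreeDCC
import Pool.Agent.MP_e848aa_gt.Closed.Card
import Pool.Agent.MP_e848aa_gt.Closed.Defs
import Pool.Agent.MP_e848aa_gt.FreeSet.Neg

/-!
Closed mappings whose fibres have boundaries of small Lindelof number.
-/

namespace Pool.Agent.MP_e848aa_gt.Closed

open Set Cardinal Topology
open Pool.Agent.MP_e848aa_gt.FreeSet

universe u v w

/-- Indexed form of the Lindelof number. -/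
theorem exists_indexed_subcover {X : Type u} [TopologicalSpace X] {S : Set X} {n : ℕ}
    (hS : LindelofNumberLe S (ℵ_ (n : Ordinal.{u}))) {N : Type v} (V : N → Set X)
    (hV : ∀ m, IsOpen (V m)) (hc : S ⊆ ⋃ m, V m) :
    ∃ P : Set N, #P ≤ ℵ_ (n : Ordinal.{v}) ∧ S ⊆ ⋃ m ∈ P, V m := by
  classical
  obtain ⟨𝒢', h1, h2, h3⟩ := hS (range V) (by rintro _ ⟨m, rfl⟩; exact hV m) (by
    rw [sUnion_range]
    exact hc)
  have h4 : ∀ G : 𝒢', ∃ m, V m = G.1 := fun G => h1 G.2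
  choose m hm using h4
  refine ⟨range m, ?_, ?_⟩
  · have h5 : Cardinal.lift.{u} #(range m) ≤ Cardinal.lift.{v} #𝒢' := Cardinal.mk_range_le_lift
    have h6 : Cardinal.lift.{v} #𝒢' ≤ Cardinal.lift.{v} (ℵ_ (n : Ordinal.{u})) :=
      Cardinal.lift_le.mpr h2
    have h7 : Cardinal.lift.{v} (ℵ_ (n : Ordinal.{u})) =
        Cardinal.lift.{u} (ℵ_ (n : Ordinal.{v})) := by
      rw [Cardinal.lift_aleph, Cardinal.lift_aleph, Ordinal.lift_natCast, Ordinal.lift_natCast]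
    rw [h7] at h6
    exact Cardinal.lift_le.mp (h5.trans h6)
  · intro x hx
    obtain ⟨G, hG, hxG⟩ := h3 hx
    refine mem_biUnion (mem_range_self ⟨G, hG⟩) ?_
    rw [hm]
    exact hxG

/-- Closed subsets all of whose points have a fibre boundary with small Lindelof number. -/
theorem coverable_of_boundary {X : Type u} {Y : Type v} [TopologicalSpace X]
    [TopologicalSpace Y] (hX : Metalindelof X) {f : X → Y} (hf : ClosedMapping f)
    (H : Set Y) (hH : IsClosed H) (n : ℕ)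
    (hlin : ∀ y ∈ H, LindelofNumberLe (f ⁻¹' {y} \ interior (f ⁻¹' {y}))
      (ℵ_ (n : Ordinal.{u})))
    {I : Type v} (hI : HasDCC I) (U : I → Set Y) (hU : ∀ i, IsOpen (U i))
    (hUc : ∀ y ∈ H, ∃ i, y ∈ U i) : Coverable (range U) H := by
  classical
  choose g hg using hf.surjective
  let T : Y → Set X := fun y =>
    if y ∈ H then insert (g y) (f ⁻¹' {y} \ interior (f ⁻¹' {y})) else f ⁻¹' {y}
  have hT1 : ∀ y, T y ⊆ f ⁻¹' {y} := by
    intro y
    by_cases h : y ∈ H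
    · simp only [T, h, if_pos]
      rintro x (rfl | hx)
      · exact hg y
      · exact hx.1
    · simp only [T, h, if_neg, not_false_iff, subset_rfl]
  have hT2 : ∀ y, f ⁻¹' {y} ⊆ T y ∪ interior (f ⁻¹' {y}) := by
    intro y x hx
    by_cases h : y ∈ H
    · by_cases hx' : x ∈ interior (f ⁻¹' {y})
      · exact Or.inr hx'
      · left
        simp only [T, h, if_pos]
        exact Or.inr ⟨hx, hx'⟩
    · left
      simpa only [T, h, if_neg, not_false_iff] using hx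
  have hgT : ∀ y, g y ∈ T y := by
    intro y
    by_cases h : y ∈ H
    · simp only [T, h, if_pos]; exact Or.inl rfl
    · simp only [T, h, if_neg, not_false_iff]; exact hg y
  have hTo : ∀ W : Set X, IsOpen W → IsOpen {y | T y ⊆ W} := by
    intro W hW
    rw [isOpen_iff_forall_mem_open]
    intro y hy
    refine ⟨{y' | ∀ x, f x = y' → x ∈ W ∪ interior (f ⁻¹' {y})}, ?_,
      isOpen_kern hf.isClosedMap (hW.union isOpen_interior), ?_⟩
    · intro y' hy' x hx
      have hxf : f x = y' := hT1 y' hx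
      rcases hy' x hxf with h | h
      · exact h
      · have h2 : x ∈ f ⁻¹' {y} := interior_subset h
        have h3 : y' = y := hxf.symm.trans h2
        exact hy (h3 ▸ hx)
    · intro x hx
      rcases hT2 y hx with h | h
      · exact Or.inl (hy h)
      · exact Or.inr h
  have hT : FibreSel f T :=
    ⟨hf.continuous, fun y => ⟨g y, hgT y⟩, fun y x hx => hT1 y hx, hTo⟩
  refine coverable_of_selection hX hf hT U hU hI H hH hUc n ?_
  intro y hy V hV hVc
  have hTy : T y = insert (g y) (f ⁻¹' {y} \ interior (f ⁻¹' {y})) := by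
    simp only [T, hy, if_pos]
  obtain ⟨P, hP1, hP2⟩ := exists_indexed_subcover (hlin y hy) V hV (by
    refine Subset.trans ?_ hVc
    rw [hTy]
    exact subset_insert _ _)
  obtain ⟨m, hm⟩ := mem_iUnion.mp (hVc (hgT y))
  refine ⟨insert m P, ?_, ?_⟩
  · refine (Cardinal.mk_insert_le).trans ?_
    exact Cardinal.add_le_of_le (Cardinal.aleph0_le_aleph _) hP1
      (Cardinal.one_le_aleph0.trans (Cardinal.aleph0_le_aleph _))
  · rw [hTy]
    rintro x (rfl | hx)
    · exact mem_biUnion (mem_insert m P) hm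
    · obtain ⟨k, hk, hxk⟩ := mem_iUnion₂.mp (hP2 hx)
      exact mem_biUnion (mem_insert_of_mem m hk) hxk

/-- The bad cover of the counterexample, with its index set. -/
theorem exists_bad_cover {Λ : Type u} (hΛ : FreeSetProperty Λ) :
    ∃ U : Λ → Set (SY Λ), (∀ a, IsOpen (U a)) ∧ (⋃ a, U a) = Set.univ ∧
      ¬ HasPointCountableOpenRefinement (range U) := by
  classical
  obtain ⟨γ₀, -⟩ := hΛ (fun _ => ∅) (fun _ => Set.countable_empty)
  let U : Λ → Set (SY Λ) := fun a => {x | (∃ z : List Bool → Λ, x = SY.pt z ∧ ∃ ρ, z ρ = a) ∨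
    ∃ d : Finset Λ, x = SY.fs d}
  have hUinl : ∀ a (z : List Bool → Λ), (SY.pt z) ∈ U a ↔ ∃ ρ, z ρ = a := by
    intro a z
    constructor
    · rintro (⟨z', h, h'⟩ | ⟨d, h⟩)
      · obtain rfl : z = z' := SY.pt.inj h
        exact h'
      · exact absurd h (by rintro ⟨⟩)
    · intro h
      exact Or.inl ⟨z, rfl, h⟩
  have hU : ∀ a, IsOpen (U a) := by
    intro a
    rw [isOpen_Y, isOpen_iff]
    intro z γ h
    obtain ⟨ρ₀, rfl⟩ := (hUinl a z).1 h
    refine ⟨ρ₀.length, ?_⟩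
    rintro (⟨w, δ⟩ | d) hx
    · obtain ⟨τ, h3, -⟩ := mem_B_inl.1 hx
      exact (hUinl _ w).2 ⟨τ ++ ρ₀, h3 ρ₀ le_rfl⟩
    · exact Or.inr ⟨d, rfl⟩
  refine ⟨U, hU, ?_, ?_⟩
  · rw [Set.eq_univ_iff_forall]
    rintro (z | d)
    · exact Set.mem_iUnion.2 ⟨z [], (hUinl _ z).2 ⟨[], rfl⟩⟩
    · exact Set.mem_iUnion.2 ⟨γ₀ 0, Or.inr ⟨d, rfl⟩⟩
  rintro ⟨W, ⟨hWo, hWc⟩, hWU, hWp⟩
  have hWU' : ∀ w ∈ W, ∃ a, w ⊆ U a := by
    intro w hw
    obtain ⟨_, ⟨a, rfl⟩, ha⟩ := hWU w hw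
    exact ⟨a, ha⟩
  choose lam hlam using hWU'
  let F : Finset Λ → Set Λ := fun A => {a | ∃ w, ∃ hw : w ∈ W, (SY.fs A) ∈ w ∧ lam w hw = a}
  have hF : ∀ A, (F A).Countable := by
    intro A
    have hc : Countable {w : Set (SY Λ) | w ∈ W ∧ (SY.fs A) ∈ w} := (hWp _).to_subtype
    refine (Set.countable_range
      (fun w : {w : Set (SY Λ) | w ∈ W ∧ (SY.fs A) ∈ w} => lam w.1 w.2.1)).mono ?_
    rintro j ⟨w, hw, hxw, rfl⟩
    exact ⟨⟨w, hw, hxw⟩, rfl⟩
  obtain ⟨γ, hγinj, hγ⟩ := hΛ F hF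
  let y : List Bool → Λ := fun ρ => γ (Encodable.encode ρ)
  have hyinj : Function.Injective y := hγinj.comp Encodable.encode_injective
  have hy : (SY.pt y) ∈ ⋃₀ W := hWc ▸ Set.mem_univ _
  obtain ⟨w, hw, hyw⟩ := hy
  obtain ⟨ρ, hρ⟩ := (hUinl _ y).1 (hlam w hw hyw)
  let β : ℕ → Bool := fun p => ρ.getD p false
  obtain ⟨m, hm⟩ := (isOpen_Y.1 (hWo w hw)) y β hyw
  have hfin : {ρ' : List Bool | Off m β ρ'}.Finite :=
    (List.finite_length_le Bool m).subset fun ρ' h => h.1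
  let A : Finset Λ := (hfin.image y).toFinset
  have hAw : (SY.fs A) ∈ w := by
    refine hm (show (SX.fs A) ∈ B m y β from mem_B_inr.2 fun ρ' hρ' => ?_)
    rw [Set.Finite.mem_toFinset]
    exact ⟨ρ', hρ', rfl⟩
  refine hγ (Encodable.encode ρ) A ?_ ⟨w, hw, hAw, hρ.symm⟩
  intro a ha
  rw [Set.Finite.mem_toFinset] at ha
  obtain ⟨ρ', hρ', rfl⟩ := ha
  refine ⟨Encodable.encode ρ', fun h => ?_, rfl⟩
  obtain rfl : ρ' = ρ := Encodable.encode_injective h
  obtain ⟨-, p, hp, hne⟩ := hρ'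
  apply hne
  simp [β, List.getD_eq_getElem?_getD, hp]

/-- Relatively closed parts of compact fibres. -/
theorem lindelofNumberLe_of_isCompact {X : Type u} [TopologicalSpace X] {K O : Set X}
    (hK : IsCompact K) (hO : IsOpen O) (n : ℕ) :
    LindelofNumberLe (K \ O) (ℵ_ (n : Ordinal.{u})) := by
  classical
  intro 𝒢 h𝒢 hc
  obtain ⟨t, ht1, ht2⟩ := (hK.diff hO).elim_finite_subcover (fun G : 𝒢 => G.1)
    (fun G => h𝒢 G.1 G.2) (by rwa [← sUnion_eq_iUnion]) |>.imp fun t ht => And.intro trivial ht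
  refine ⟨Subtype.val '' (t : Set 𝒢), ?_, ?_, ?_⟩
  · rintro _ ⟨G, _, rfl⟩
    exact G.2
  · have hfin : (Subtype.val '' (t : Set 𝒢)).Finite := t.finite_toSet.image _
    exact (Cardinal.le_aleph0_iff_set_countable.mpr hfin.countable).trans
      (Cardinal.aleph0_le_aleph _)
  · intro x hx
    obtain ⟨G, hG, hxG⟩ := mem_iUnion₂.mp (ht2 hx)
    exact ⟨G.1, ⟨G, hG, rfl⟩, hxG⟩

end Pool.Agent.MP_e848aa_gt.Closed
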