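import Pool.Agent.MP_e848aa_gt.Closed.Fcl

/-!
A rank of closed sets, strictly monotone, and below `ν⁺` for closed sets of size `ν`.
-/

namespace Pool.Agent.MP_e848aa_gt.Closed

open Set Cardinal
open Pool.Agent.MP_e848aa_gt.FreeSet

universe u v

variable {I : Type v} {F : Finset I → Set I}

theorem rfree_append (d : I) : ∀ (r : List I) (S : Set I), RFree F r S →
    d ∉ fcl F (S ∪ {x | x ∈ r}) → RFree F (r ++ [d]) S := by
  intro r
  induction r with
  | nil =>
    intro S _ hd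
    refine ⟨fun h => hd (fcl_mono subset_union_left h), trivial⟩
  | cons i r ih =>
    rintro S ⟨h1, h2⟩ hd
    refine ⟨h1, ih (insert i S) h2 fun h => hd (fcl_mono ?_ h)⟩
    rintro x ((rfl | hx) | hx)
    · exact Or.inr (List.mem_cons_self)
    · exact Or.inl hx
    · exact Or.inr (List.mem_cons_of_mem _ hx)

/-- The rank of a closed set. -/
noncomputable def rk (hdcc : DCCof F) (C : Set I) : Ordinal.{v} :=
  ((wf_ext hdcc C).apply []).rank

theorem rank_le_append (hdcc : DCCof F) {C D : Set I} (hC : FClosed F C) (hCD : C ⊆ D) {d : I}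
    (hdC : d ∉ C) (r : List I) (hr : ∀ x ∈ r, x ∈ C) :
    ((wf_ext hdcc C).apply r).rank ≤ ((wf_ext hdcc D).apply (r ++ [d])).rank := by
  induction r using (wf_ext hdcc C).induction with
  | _ r ih =>
  rw [Acc.rank_eq]
  refine Ordinal.iSup_le ?_
  rintro ⟨r', i, hi, rfl, hr'⟩
  have hr2 : ∀ x ∈ i :: r, x ∈ C := by
    intro x hx
    rcases List.mem_cons.mp hx with rfl | hx
    · exact hi
    · exact hr x hx
  have h1 := ih (i :: r) ⟨i, hi, rfl, hr'⟩ hr2
  refine Order.succ_le_of_lt (lt_of_le_of_lt h1 ?_)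
  refine Acc.rank_lt_of_rel ((wf_ext hdcc D).apply (r ++ [d])) ⟨i, hCD hi, rfl, ?_⟩
  refine rfree_append d (i :: r) ∅ hr' fun h => hdC ?_
  have h2 : fcl F (∅ ∪ {x | x ∈ i :: r}) ⊆ C := by
    refine fcl_min ?_ hC
    rintro x (hx | hx)
    · exact absurd hx (by simp)
    · exact hr2 x hx
  exact h2 h

theorem rk_lt (hdcc : DCCof F) {C D : Set I} (hC : FClosed F C) (hCD : C ⊂ D) :
    rk hdcc C < rk hdcc D := by
  obtain ⟨d, hdD, hdC⟩ := exists_of_ssubset hCD
  have h1 := rank_le_append hdcc hC hCD.subset hdC [] (by simp)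
  refine lt_of_le_of_lt h1 ?_
  refine Acc.rank_lt_of_rel ((wf_ext hdcc D).apply []) ⟨d, hdD, rfl, ?_, trivial⟩
  intro h
  exact hdC (fcl_min (empty_subset _) hC h)

theorem rank_lt_ord (hdcc : DCCof F) {C : Set I} {ν : Cardinal.{v}} (hν : ℵ₀ ≤ ν) (hC : #C ≤ ν)
    (r : List I) : ((wf_ext hdcc C).apply r).rank < (Order.succ ν).ord := by
  induction r using (wf_ext hdcc C).induction with
  | _ r ih =>
  rw [Acc.rank_eq]
  refine Cardinal.iSup_lt_ord_of_isRegular (Cardinal.isRegular_succ hν) ?_ ?_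
  · rw [Order.lt_succ_iff]
    refine le_trans ?_ hC
    refine Cardinal.mk_le_of_injective
      (f := fun b : {b // Ext F C b r} => (⟨b.2.choose, b.2.choose_spec.1⟩ : C)) ?_
    intro b b' hbb'
    have h1 : b.2.choose = b'.2.choose := congrArg Subtype.val hbb'
    apply Subtype.ext
    rw [b.2.choose_spec.2.1, b'.2.choose_spec.2.1, h1]
  · rintro ⟨b, hb⟩
    exact (Cardinal.isSuccLimit_ord (hν.trans (Order.le_succ ν))).succ_lt (ih b hb)

theorem rk_lt_ord (hdcc : DCCof F) {C : Set I} {ν : Cardinal.{v}} (hν : ℵ₀ ≤ ν) (hC : #C ≤ ν) :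
    rk hdcc C < (Order.succ ν).ord := rank_lt_ord hdcc hν hC []

end Pool.Agent.MP_e848aa_gt.Closed
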