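import Pool.Agent.MP_e848aa_gt.Closed.LemmaP
import Pool.Agent.MP_e848aa_gt.Closed.Rank

/-!
From closed sets `M x` of size `ν` to `ν⁺` many point-countable families.
-/

namespace Pool.Agent.MP_e848aa_gt.Closed

open Set Cardinal
open Pool.Agent.MP_e848aa_gt.FreeSet

universe u v w

theorem mk_option_le {Λ : Type v} {ν : Cardinal.{v}} (hν : ℵ₀ ≤ ν) (h : #Λ ≤ ν) :
    #(Option Λ) ≤ ν := by
  rw [Cardinal.mk_option]
  exact Cardinal.add_le_of_le hν h (Cardinal.one_le_aleph0.trans hν)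

/-- The families. -/
theorem exists_families {X : Type u} {Y : Type v} [TopologicalSpace X] [TopologicalSpace Y]
    (hX : Metalindelof X) {f : X → Y} {T : Y → Set X} (hT : FibreSel f T) {I : Type v}
    (U : I → Set Y) (hU : ∀ i, IsOpen (U i)) (ν : Cardinal.{v}) (hν : ℵ₀ ≤ ν)
    (F : Finset I → Set I) (hdcc : DCCof F) (H : Set Y) (hH : IsClosed H)
    (hP : RelPlt H (Order.succ ν)) (M : X → Set I) (m1 : ∀ x, FClosed F (M x))
    (m2 : ∀ x, #(M x) ≤ ν) (m3 : ∀ i, IsOpen {x | i ∈ M x})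
    (m4 : ∀ y ∈ H, ∃ i, y ∈ U i ∧ ∀ x ∈ T y, i ∈ M x) :
    ∃ (K : Type v) (𝒲 : K → Set (Set Y)), #K ≤ Order.succ ν ∧ (∀ k, ∀ W ∈ 𝒲 k, IsOpen W) ∧
      (∀ k, Refines (𝒲 k) (range U)) ∧ (∀ k, PointCountable (𝒲 k)) ∧ H ⊆ ⋃₀ ⋃ k, 𝒲 k := by
  classical
  rcases H.eq_empty_or_nonempty with rfl | ⟨y₀, hy₀⟩
  · exact ⟨PEmpty, fun k => k.elim, by simp, fun k => k.elim, fun k => k.elim,
      fun k => k.elim, by simp⟩
  have hIne : Nonempty I := ⟨(m4 y₀ hy₀).choose⟩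
  -- the closed sets attached to the points
  let N : Y → Set I := fun y => {i | ∀ x ∈ T y, i ∈ M x}
  have hNc : ∀ y, FClosed F (N y) := fun y A hA z hz x hx => m1 x A (fun a ha => hA ha x hx) hz
  have hNν : ∀ y, #(N y) ≤ ν := by
    intro y
    obtain ⟨x, hx⟩ := hT.ne y
    have h1 : N y ⊆ M x := fun i hi => hi x hx
    exact (Cardinal.mk_le_mk_of_subset h1).trans (m2 x)
  have hNo : ∀ i, IsOpen {z | i ∈ N z} := fun i => hT.op _ (m3 i)
  choose! i₀ hi₀U hi₀N using m4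
  -- base neighbourhoods
  have hbase : ∀ y ∈ H, ∃ G, IsOpen G ∧ y ∈ G ∧ ∀ z ∈ G, z ∈ H → N y ⊆ N z ∧ z ∈ U (i₀ y) := by
    intro y hy
    obtain ⟨G, g1, g2, g3⟩ := hP y hy (Option (N y))
      (fun o => o.elim (U (i₀ y)) (fun a => {z | a.1 ∈ N z}))
      (Order.lt_succ_iff.mpr (mk_option_le hν (hNν y))) (by
        intro o
        cases o with
        | none => exact hU _
        | some a => exact hNo a.1) (by
        intro o
        cases o with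
        | none => exact hi₀U y hy
        | some a => exact a.2)
    exact ⟨G, g1, g2, fun z hz hzH => ⟨fun a ha => g3 z hz hzH (some ⟨a, ha⟩),
      g3 z hz hzH none⟩⟩
  choose! Eb eb1 eb2 eb3 using hbase
  let good : (Y → Set Y) → Prop := fun E => ∀ y ∈ H, IsOpen (E y) ∧ y ∈ E y ∧
    ∀ z ∈ E y, z ∈ H → z ∈ Eb y
  have hO : ∀ E : Y → Set Y, good E → ∃ O : Set I → Set X, (∀ C, IsOpen (O C)) ∧
      (∀ C, ∀ x ∈ O C, ∃ y ∈ H, N y = C ∧ f x ∈ E y) ∧ (∀ x, f x ∈ H → ∃ C, x ∈ O C) ∧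
        ∀ x, {C | x ∈ O C}.Countable := by
    intro E hE
    obtain ⟨O, o1, o2, o3, o4⟩ := hX.shrinkOn (ι := Set I)
      (fun C => ⋃ (y : Y) (_ : y ∈ H ∧ N y = C), f ⁻¹' (E y))
      (fun C => isOpen_iUnion fun y => isOpen_iUnion fun h => (hE y h.1).1.preimage hT.cont)
      (f ⁻¹' H) (hH.preimage hT.cont) (by
        intro x hx
        refine ⟨N (f x), ?_⟩
        simp only [mem_iUnion]
        exact ⟨f x, ⟨hx, rfl⟩, (hE _ hx).2.1⟩)
    refine ⟨O, o1, ?_, o3, o4⟩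
    intro C x hx
    have h1 := o2 C hx
    simp only [mem_iUnion] at h1
    obtain ⟨y, ⟨h2, h3⟩, h4⟩ := h1
    exact ⟨y, h2, h3, h4⟩
  choose! O o1 o2 o3 o4 using hO
  let nb : (Y → Set Y) → Y → Set Y := fun E y => {z | T z ⊆ ⋃ (C : Set I) (_ : C ⊆ N y), O E C}
  have hnb : ∀ E, good E → ∀ y ∈ H, IsOpen (nb E y) ∧ y ∈ nb E y := by
    intro E hE y hy
    refine ⟨hT.op _ (isOpen_iUnion fun C => isOpen_iUnion fun _ => o1 E hE C), ?_⟩
    intro x hx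
    have hfx := hT.fib y x hx
    obtain ⟨C, hC⟩ := o3 E hE x (by rw [hfx]; exact hy)
    obtain ⟨y', hy', hNy', hxy'⟩ := o2 E hE C x hC
    rw [hfx] at hxy'
    have h1 := (eb3 y' hy' y ((hE y' hy').2.2 y hxy' hy) hy).1
    rw [hNy'] at h1
    simp only [mem_iUnion]
    exact ⟨C, h1, hC⟩
  -- the long recursion
  obtain ⟨K₀, hK₀⟩ : ∃ K₀ : Type v, #K₀ = Order.succ ν := ⟨_, Cardinal.mk_out _⟩
  obtain ⟨g, hg, hseg⟩ := exists_rank K₀ (Order.succ ν) hK₀.le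
  have hwf : WellFounded (fun a b : K₀ => g a < g b) := InvImage.wf g wellFounded_lt
  have hE : ∃ E : K₀ → Y → Set Y, ∀ α y, (∃ G, IsOpen G ∧ y ∈ G ∧ ∀ z ∈ G, z ∈ H → z ∈ Eb y ∧
      ∀ β, g β < g α → z ∈ nb (E β) y) → IsOpen (E α y) ∧ y ∈ E α y ∧ ∀ z ∈ E α y, z ∈ H →
        z ∈ Eb y ∧ ∀ β, g β < g α → z ∈ nb (E β) y := by
    let E : K₀ → Y → Set Y := hwf.fix (fun α rec y =>
      if h : ∃ G, IsOpen G ∧ y ∈ G ∧ ∀ z ∈ G, z ∈ H → z ∈ Eb y ∧
        ∀ β (hβ : g β < g α), z ∈ nb (rec β hβ) y then h.choose else Set.univ)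
    have hEq : ∀ α, E α = fun y => if h : ∃ G, IsOpen G ∧ y ∈ G ∧ ∀ z ∈ G, z ∈ H → z ∈ Eb y ∧
        ∀ β (_ : g β < g α), z ∈ nb (E β) y then h.choose else Set.univ := by
      intro α
      show hwf.fix _ α = _
      rw [hwf.fix_eq]
    refine ⟨E, fun α y h => ?_⟩
    rw [hEq α]
    simp only [dif_pos h]
    exact h.choose_spec
  obtain ⟨E, hE⟩ := hE
  have hgood : ∀ α, good (E α) ∧ ∀ y ∈ H, ∀ z ∈ E α y, z ∈ H → ∀ β, g β < g α →
      z ∈ nb (E β) y := by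
    intro α
    induction α using hwf.induction with
    | _ α ih =>
    have h1 : ∀ y ∈ H, IsOpen (E α y) ∧ y ∈ E α y ∧ ∀ z ∈ E α y, z ∈ H →
        z ∈ Eb y ∧ ∀ β, g β < g α → z ∈ nb (E β) y := by
      intro y hy
      refine hE α y ?_
      obtain ⟨G, g1, g2, g3⟩ := hP y hy (Option {β | g β < g α})
        (fun o => o.elim (Eb y) (fun β => nb (E β.1) y))
        (Order.lt_succ_iff.mpr (mk_option_le hν (Order.lt_succ_iff.mp (hseg α)))) (by
          intro o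
          cases o with
          | none => exact eb1 y hy
          | some β => exact (hnb _ (ih β.1 β.2).1 y hy).1) (by
          intro o
          cases o with
          | none => exact eb2 y hy
          | some β => exact (hnb _ (ih β.1 β.2).1 y hy).2)
      exact ⟨G, g1, g2, fun z hz hzH => ⟨g3 z hz hzH none,
        fun β hβ => g3 z hz hzH (some ⟨β, hβ⟩)⟩⟩
    exact ⟨fun y hy => ⟨(h1 y hy).1, (h1 y hy).2.1, fun z hz hzH => ((h1 y hy).2.2 z hz hzH).1⟩,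
      fun y hy z hz hzH => ((h1 y hy).2.2 z hz hzH).2⟩
  -- enumerations
  obtain ⟨K₁, hK₁⟩ : ∃ K₁ : Type v, #K₁ = ν := ⟨_, Cardinal.mk_out _⟩
  have hK₁ne : Nonempty K₁ := by
    rw [← Cardinal.mk_ne_zero_iff, hK₁]
    exact (Cardinal.aleph0_pos.trans_le hν).ne'
  have hj : ∀ D : Set I, ∃ j : I → K₁, #D ≤ ν → InjOn j D := by
    intro D
    by_cases hD : #D ≤ ν
    · rw [← hK₁] at hD
      obtain ⟨e⟩ := (Cardinal.le_def _ _).mp hD
      refine ⟨fun i => if h : i ∈ D then e ⟨i, h⟩ else hK₁ne.some, fun _ => ?_⟩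
      intro a ha b hb hab
      simp only [ha, hb, dif_pos] at hab
      exact congrArg Subtype.val (e.injective hab)
    · exact ⟨fun _ => hK₁ne.some, fun h => absurd h hD⟩
  choose j hj using hj
  refine ⟨K₀ × K₁, fun p => {W | ∃ D : Set I, #D ≤ ν ∧ ∃ i ∈ D, j D i = p.2 ∧
    W = {z | T z ⊆ O (E p.1) D} ∩ U i}, ?_, ?_, ?_, ?_, ?_⟩
  · rw [Cardinal.mk_prod, Cardinal.lift_id, Cardinal.lift_id, hK₀, hK₁]
    refine (mul_le_mul' le_rfl (Order.le_succ ν)).trans ?_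
    exact (Cardinal.mul_eq_self (hν.trans (Order.le_succ ν))).le
  · rintro ⟨α, κ⟩ W ⟨D, _, i, _, _, rfl⟩
    exact (hT.op _ (o1 _ (hgood α).1 D)).inter (hU i)
  · rintro ⟨α, κ⟩ W ⟨D, _, i, _, _, rfl⟩
    exact ⟨U i, ⟨i, rfl⟩, inter_subset_right⟩
  · rintro ⟨α, κ⟩ z
    obtain ⟨x, hx⟩ := hT.ne z
    have h1 : (⋃ D ∈ {D | x ∈ O (E α) D}, {W : Set Y | #D ≤ ν ∧ ∃ i ∈ D, j D i = κ ∧
        W = {z | T z ⊆ O (E α) D} ∩ U i}).Countable := by
      refine (o4 _ (hgood α).1 x).biUnion fun D _ => Set.Subsingleton.countable ?_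
      rintro _ ⟨hD, i, hi, hij, rfl⟩ _ ⟨_, i', hi', hij', rfl⟩
      rw [hj D hD hi hi' (hij.trans hij'.symm)]
    refine h1.mono ?_
    rintro W ⟨⟨D, hD, i, hi, hij, rfl⟩, hzW⟩
    exact mem_biUnion (show D ∈ {D | x ∈ O (E α) D} from hzW.1 hx) ⟨hD, i, hi, hij, rfl⟩
  -- covering
  intro z hz
  let R : K₀ → Set Ordinal.{v} := fun α => {o | ∃ y ∈ H, z ∈ E α y ∧ o = rk hdcc (N y)}
  have hRz : ∀ α, rk hdcc (N z) ∈ R α := fun α => ⟨z, hz, ((hgood α).1 z hz).2.1, rfl⟩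
  let ρ : K₀ → Ordinal.{v} := fun α => sInf (R α)
  have hρmem : ∀ α, ρ α ∈ R α := fun α => csInf_mem ⟨_, hRz α⟩
  have hρle : ∀ α, ∀ o ∈ R α, ρ α ≤ o := fun α o ho => csInf_le' ho
  have hpig : ∃ α β, g α < g β ∧ ρ α = ρ β := by
    by_contra hcon
    push Not at hcon
    have hinj : Function.Injective ρ := by
      intro α β hαβ
      rcases lt_trichotomy (g α) (g β) with h | h | h
      · exact absurd hαβ (hcon α β h)
      · exact hg h
      · exact absurd hαβ.symm (hcon β α h)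
    have h1 : Cardinal.lift.{v + 1} #K₀ ≤
        Cardinal.lift.{v} #(Set.Iio (Order.succ (rk hdcc (N z)))) :=
      Cardinal.lift_mk_le_lift_mk_of_injective (f := fun α : K₀ =>
        (⟨ρ α, Order.lt_succ_iff.mpr (hρle α _ (hRz α))⟩ :
          Set.Iio (Order.succ (rk hdcc (N z))))) (fun α β h => hinj (congrArg Subtype.val h))
    have h2 : Order.succ (rk hdcc (N z)) < (Order.succ ν).ord :=
      (Cardinal.isSuccLimit_ord (hν.trans (Order.le_succ ν))).succ_lt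
        (rk_lt_ord hdcc hν (hNν z))
    rw [Cardinal.lt_ord] at h2
    rw [Cardinal.mk_Iio_ordinal, Cardinal.lift_lift, hK₀] at h1
    have h3 := Cardinal.lift_le.mp h1
    exact absurd h2 (not_lt.mpr h3)
  obtain ⟨α, β, hαβ, hρ⟩ := hpig
  obtain ⟨y, hy, hzy, hρy⟩ := hρmem β
  have h1 := (hgood β).2 y hy z hzy hz α hαβ
  have h2 : T z ⊆ O (E α) (N y) := by
    intro x hx
    have h3 := h1 hx
    simp only [mem_iUnion] at h3
    obtain ⟨C, hC, hxC⟩ := h3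
    obtain ⟨y', hy', hNy', hzy'⟩ := o2 _ (hgood α).1 C x hxC
    rw [hT.fib z x hx] at hzy'
    have h4 : ρ α ≤ rk hdcc C := hρle α _ ⟨y', hy', hzy', by rw [hNy']⟩
    have h5 : C = N y := by
      by_contra hne
      have h6 : rk hdcc C < rk hdcc (N y) :=
        rk_lt hdcc (by rw [← hNy']; exact hNc y') (hC.ssubset_of_ne hne)
      rw [hρ, hρy] at h4
      exact absurd h6 (not_lt.mpr h4)
    rw [← h5]
    exact hxC
  have h3 := (eb3 y hy z (((hgood β).1 y hy).2.2 z hzy hz) hz).2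
  refine ⟨{z | T z ⊆ O (E α) (N y)} ∩ U (i₀ y), ?_, h2, h3⟩
  exact mem_iUnion.mpr ⟨(α, j (N y) (i₀ y)), N y, hNν y, i₀ y, hi₀N y hy, rfl, rfl⟩

end Pool.Agent.MP_e848aa_gt.Closed
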