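import Pool.Agent.MP_e848aa_gt.Closed.PNbhd

/-!
The chain lemma: iterated refinements produce small closed sets `M x` of indices such that
each fibre in the remaining closed set meets the indices of the members containing its point.
-/

namespace Pool.Agent.MP_e848aa_gt.Closed

open Set Cardinal
open Pool.Agent.MP_e848aa_gt.FreeSet

universe u v w

/-- The names collected at the point `x` from level `k` on. -/
inductive Hat {X : Type u} {N : Type v} (V : ℕ → N → Set X) (c : ℕ → N → Set N) (x : X) :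
    ℕ → N → Prop
  | base {k : ℕ} {t : N} : x ∈ V k t → Hat V c x k t
  | down {k : ℕ} {n t : N} : Hat V c x (k + 1) n → t ∈ c k n → Hat V c x k t

theorem isOpen_hat {X : Type u} [TopologicalSpace X] {N : Type v} {V : ℕ → N → Set X}
    {c : ℕ → N → Set N} (hV : ∀ k n, IsOpen (V k n)) (k : ℕ) (t : N) :
    IsOpen {x | Hat V c x k t} := by
  rw [isOpen_iff_forall_mem_open]
  intro x hx
  have hx' : Hat V c x k t := hx
  clear hx
  induction hx' with
  | @base k t h => exact ⟨V k t, fun x' hx' => Hat.base hx', hV k t, h⟩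
  | down _ h' ih =>
    obtain ⟨O, hO1, hO2, hO3⟩ := ih
    exact ⟨O, fun x' hx' => Hat.down (hO1 hx') h', hO2, hO3⟩

/-- The names at level `k` obtained from level `k + j` in `j` steps. -/
def reach {X : Type u} {N : Type v} (V : ℕ → N → Set X) (c : ℕ → N → Set N) (x : X) :
    ℕ → ℕ → Set N
  | 0, k => {t | x ∈ V k t}
  | j + 1, k => ⋃ n : reach V c x j (k + 1), c k n

theorem mk_hat_le {X : Type u} {N : Type v} {V : ℕ → N → Set X} {c : ℕ → N → Set N}
    {ν : Cardinal.{v}} (hν : ℵ₀ ≤ ν) (hV : ∀ k x, {n | x ∈ V k n}.Countable)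
    (hc : ∀ k n, #(c k n) ≤ ν) (x : X) (k : ℕ) : #{t | Hat V c x k t} ≤ ν := by
  let R := reach V c x
  have hR0 : ∀ k, R 0 k = {t | x ∈ V k t} := fun _ => rfl
  have hRs : ∀ j k, R (j + 1) k = ⋃ n : R j (k + 1), c k n := fun _ _ => rfl
  have hRc : ∀ j k, #(R j k) ≤ ν := by
    intro j
    induction j with
    | zero =>
      intro k
      rw [hR0]
      exact (Cardinal.le_aleph0_iff_set_countable.mpr (hV k x)).trans hν
    | succ j ih =>
      intro k
      rw [hRs]
      refine (Cardinal.mk_iUnion_le _).trans ?_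
      exact (mul_le_mul' (ih (k + 1)) (ciSup_le' fun n : R j (k + 1) => hc k n.1)).trans
        (Cardinal.mul_eq_self hν).le
  have hsub : {t | Hat V c x k t} ⊆ ⋃ j : ULift.{v} ℕ, R j.down k := by
    intro t ht
    have ht' : Hat V c x k t := ht
    clear ht
    induction ht' with
    | base h => exact mem_iUnion.mpr ⟨⟨0⟩, h⟩
    | down _ h' ih =>
      obtain ⟨j, hj⟩ := mem_iUnion.mp ih
      refine mem_iUnion.mpr ⟨⟨j.down + 1⟩, ?_⟩
      exact mem_iUnion.mpr ⟨⟨_, hj⟩, h'⟩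
  refine (Cardinal.mk_le_mk_of_subset hsub).trans ?_
  refine (Cardinal.mk_iUnion_le (fun j : ULift.{v} ℕ => R j.down k)).trans ?_
  have h1 : (⨆ j : ULift.{v} ℕ, #(R j.down k)) ≤ ν :=
    ciSup_le' fun j : ULift.{v} ℕ => hRc j.down k
  have h2 : #(ULift.{v} ℕ) ≤ ν := by simpa using hν
  exact (mul_le_mul' h2 h1).trans (Cardinal.mul_eq_self hν).le

/-- Closing up an open assignment. -/
theorem isOpen_fcl {X : Type u} [TopologicalSpace X] {I : Type w} (F : Finset I → Set I)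
    (s : X → Set I) (hs : ∀ i, IsOpen {x | i ∈ s x}) (i : I) :
    IsOpen {x | i ∈ fcl F (s x)} := by
  classical
  rw [isOpen_iff_forall_mem_open]
  intro x hx
  have hx' : FGen F (s x) i := hx
  clear hx
  induction hx' with
  | @base i h => exact ⟨_, fun x' hx' => FGen.base hx', hs i, h⟩
  | @rule A i _ h ih =>
    choose! O hO1 hO2 hO3 using ih
    refine ⟨⋂ a ∈ A, O a, ?_, isOpen_biInter_finset fun a ha => hO2 a ha, ?_⟩
    · intro x' hx'
      refine FGen.rule (fun a ha => ?_) h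
      exact hO1 a ha (mem_iInter₂.mp hx' a ha)
    · exact mem_iInter₂.mpr fun a ha => hO3 a ha

/-- The step hypothesis of the chain lemma. -/
def StepHyp {X : Type u} {Y : Type v} [TopologicalSpace X] [TopologicalSpace Y] (f : X → Y)
    (T : Y → Set X) (𝒰 : Set (Set Y)) (H : Set Y) (N : Type v) (ν : Cardinal.{v}) : Prop :=
  ∀ A : Set Y, IsClosed A → A ⊆ H → ∀ G : N → Set Y, (∀ n, IsOpen (G n)) →
    (∀ y ∈ A, ∃ n, y ∈ G n) → ∃ A' : Set Y, IsClosed A' ∧ A' ⊆ A ∧ Coverable 𝒰 (A \ A') ∧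
      ∃ (V : N → Set X) (c : N → Set N), (∀ n, IsOpen (V n)) ∧ (∀ n, V n ⊆ f ⁻¹' (G n)) ∧
        (∀ x, {n | x ∈ V n}.Countable) ∧ (∀ n, #(c n) ≤ ν) ∧
          ∀ y ∈ A', ∃ n, T y ⊆ ⋃ m ∈ c n, V m

/-- The chain lemma. -/
theorem chain {X : Type u} {Y : Type v} [TopologicalSpace X] [TopologicalSpace Y]
    {f : X → Y} {T : Y → Set X} (hT : FibreSel f T) {I N : Type v} (e : I → N)
    (he : Function.Injective e) (U : I → Set Y) (hU : ∀ i, IsOpen (U i)) (ν : Cardinal.{v})
    (hν : ℵ₀ ≤ ν) (F : Finset I → Set I) (hF : ∀ A, (F A).Countable) (hdcc : DCCof F)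
    (H : Set Y) (hH : IsClosed H) (hUc : ∀ y ∈ H, ∃ i, y ∈ U i)
    (hstep : StepHyp f T (range U) H N ν) :
    ∃ A' : Set Y, IsClosed A' ∧ A' ⊆ H ∧ Coverable (range U) (H \ A') ∧
      ∃ M : X → Set I, (∀ x, FClosed F (M x)) ∧ (∀ x, #(M x) ≤ ν) ∧
        (∀ i, IsOpen {x | i ∈ M x}) ∧ ∀ y ∈ A', ∃ i, y ∈ U i ∧ ∀ x ∈ T y, i ∈ M x := by
  classical
  let S := {p : Set Y × (N → Set Y) // (IsClosed p.1 ∧ p.1 ⊆ H) ∧ (∀ n, IsOpen (p.2 n)) ∧
    ∀ y ∈ p.1, ∃ n, y ∈ p.2 n}
  have hst := fun p : S => hstep p.1.1 p.2.1.1 p.2.1.2 p.1.2 p.2.2.1 p.2.2.2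
  choose A' a1 a2 a3 V c v1 v2 v3 v4 v5 using hst
  let nxt : S → S := fun p => ⟨(A' p, fun n => {y | T y ⊆ ⋃ m ∈ c p n, V p m}),
    ⟨a1 p, (a2 p).trans p.2.1.2⟩,
    fun n => hT.op _ (isOpen_biUnion fun m _ => v1 p m), v5 p⟩
  let p0 : S := ⟨(H, fun n => ⋃ (i : I) (_ : e i = n), U i), ⟨hH, subset_rfl⟩,
    fun n => isOpen_iUnion fun i => isOpen_iUnion fun _ => hU i, by
      intro y hy
      obtain ⟨i, hi⟩ := hUc y hy
      refine ⟨e i, ?_⟩
      simp only [mem_iUnion]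
      exact ⟨i, rfl, hi⟩⟩
  let q : ℕ → S := fun k => nxt^[k] p0
  have hq : ∀ k, q (k + 1) = nxt (q k) := fun k => Function.iterate_succ_apply' _ _ _
  have hqA : ∀ k, (q (k + 1)).1.1 = A' (q k) := fun k => by rw [hq]
  have hqG : ∀ k n, (q (k + 1)).1.2 n = {y | T y ⊆ ⋃ m ∈ c (q k) n, V (q k) m} :=
    fun k n => by rw [hq]
  let V' : ℕ → N → Set X := fun k => V (q k)
  let c' : ℕ → N → Set N := fun k => c (q k)
  -- the key claim
  have key : ∀ E : Finset X, ∀ y, (∀ k, y ∈ (q k).1.1) → (∀ x ∈ E, x ∈ T y) → ∀ k,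
      ∃ t, y ∈ (q k).1.2 t ∧ ∀ x ∈ E, Hat V' c' x k t := by
    intro E y hy
    induction E using Finset.induction_on with
    | empty =>
      intro _ k
      obtain ⟨t, ht⟩ := (q k).2.2.2 y (hy k)
      exact ⟨t, ht, fun x hx => by simp at hx⟩
    | insert a E ha ih =>
      intro hE k
      obtain ⟨n, hn, hnE⟩ := ih (fun x hx => hE x (Finset.mem_insert_of_mem hx)) (k + 1)
      rw [hqG] at hn
      have haT := hE a (Finset.mem_insert_self a E)
      obtain ⟨t, ht, hat⟩ := mem_iUnion₂.mp (hn haT)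
      refine ⟨t, ?_, ?_⟩
      · have h1 := v2 (q k) t hat
        rw [mem_preimage, hT.fib y a haT] at h1
        exact h1
      · intro x hx
        rcases Finset.mem_insert.mp hx with rfl | hx
        · exact Hat.base hat
        · exact Hat.down (hnE x hx) ht
  let s : X → Set I := fun x => {i | Hat V' c' x 0 (e i)}
  have hs : ∀ i, IsOpen {x | i ∈ s x} := fun i => isOpen_hat (fun k n => v1 (q k) n) 0 (e i)
  have hsc : ∀ x, #(s x) ≤ ν := by
    intro x
    refine le_trans ?_ (mk_hat_le hν (V := V') (c := c') (fun k x => v3 (q k) x)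
      (fun k n => v4 (q k) n) x 0)
    exact Cardinal.mk_le_of_injective (f := fun i : s x => (⟨e i.1, i.2⟩ :
      {t | Hat V' c' x 0 t})) (fun i j hij => Subtype.ext (he (congrArg Subtype.val hij)))
  refine ⟨⋂ k, (q k).1.1, isClosed_iInter fun k => (q k).2.1.1,
    (iInter_subset _ 0), ?_, fun x => fcl F (s x), fun x => fclosed_fcl _,
    fun x => mk_fcl_le hF hν (hsc x), isOpen_fcl F s hs, ?_⟩
  · refine (coverable_iUnion (fun k => (q k).1.1 \ A' (q k)) (fun k => a3 (q k))).mono_set ?_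
    rintro y ⟨hyH, hy⟩
    have h1 : ∃ k, y ∉ (q k).1.1 := by
      by_contra hcon
      push Not at hcon
      exact hy (mem_iInter.mpr hcon)
    have h2 := Nat.find_spec h1
    have h3 : Nat.find h1 ≠ 0 := by
      intro h0
      rw [h0] at h2
      exact h2 hyH
    obtain ⟨k, hk⟩ := Nat.exists_eq_succ_of_ne_zero h3
    have h4 : y ∈ (q k).1.1 := by
      by_contra hcon
      exact Nat.find_min h1 (m := k) (by omega) hcon
    rw [hk, Nat.succ_eq_add_one, hqA] at h2
    exact mem_iUnion.mpr ⟨k, h4, h2⟩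
  · intro y hy
    obtain ⟨E, hE1, hE2⟩ := exists_finite_inter hdcc (fun x => fcl F (s x))
      (fun x => fclosed_fcl _) (T y)
    obtain ⟨t, ht, htE⟩ := key E y (fun k => mem_iInter.mp hy k) hE1 0
    obtain ⟨i, hi, hyi⟩ := mem_iUnion₂.mp ht
    refine ⟨i, hyi, hE2 i fun x hx => subset_fcl _ ?_⟩
    show Hat V' c' x 0 (e i)
    rw [hi]
    exact htE x hx

/-- The chain lemma for countable sets gives refinements. -/
theorem coverable_of_stepHyp {X : Type u} {Y : Type v} [TopologicalSpace X] [TopologicalSpace Y]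
    {f : X → Y} {T : Y → Set X} (hT : FibreSel f T) {I N : Type v} (e : I → N)
    (he : Function.Injective e) (U : I → Set Y) (hU : ∀ i, IsOpen (U i))
    (F : Finset I → Set I) (hF : ∀ A, (F A).Countable) (hdcc : DCCof F)
    (H : Set Y) (hH : IsClosed H) (hUc : ∀ y ∈ H, ∃ i, y ∈ U i)
    (hstep : StepHyp f T (range U) H N ℵ₀) : Coverable (range U) H := by
  classical
  obtain ⟨A', h1, h2, h3, M, m1, m2, m3, m4⟩ :=
    chain hT e he U hU ℵ₀ le_rfl F hF hdcc H hH hUc hstep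
  have h4 : Coverable (range U) A' := by
    refine coverable_of_indexed (ι := I) (fun i => {y | T y ⊆ {x | i ∈ M x}} ∩ U i) ?_ ?_ ?_ ?_
    · exact fun i => (hT.op _ (m3 i)).inter (hU i)
    · exact fun i => ⟨U i, ⟨i, rfl⟩, inter_subset_right⟩
    · intro y hy
      obtain ⟨i, hi1, hi2⟩ := m4 y hy
      exact ⟨i, hi2, hi1⟩
    · intro y
      obtain ⟨x, hx⟩ := hT.ne y
      exact (Cardinal.le_aleph0_iff_set_countable.mp (m2 x)).mono fun i hi => hi.1 hx
  refine (coverable_iUnion (fun b : Bool => bif b then A' else H \ A') ?_).mono_set ?_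
  · intro b
    cases b
    · exact h3
    · exact h4
  · intro y hy
    by_cases h : y ∈ A'
    · exact mem_iUnion.mpr ⟨true, h⟩
    · exact mem_iUnion.mpr ⟨false, hy, h⟩

end Pool.Agent.MP_e848aa_gt.Closed
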