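import Pool.Agent.MP_e848aa_gt.FreeSet.DCC

/-!
Closures under a countable-valued map on finite sets, reverse-free lists, and their ranks.
-/

namespace Pool.Agent.MP_e848aa_gt.Closed

open Set Cardinal
open Pool.Agent.MP_e848aa_gt.FreeSet

universe u v

/-- The least closed set containing `S`, as an inductive predicate. -/
inductive FGen {I : Type v} (F : Finset I → Set I) (S : Set I) : I → Prop
  | base {z : I} : z ∈ S → FGen F S z
  | rule {A : Finset I} {z : I} : (∀ a ∈ A, FGen F S a) → z ∈ F A → FGen F S z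

/-- The least closed set containing `S`. -/
def fcl {I : Type v} (F : Finset I → Set I) (S : Set I) : Set I := {z | FGen F S z}

variable {I : Type v} {F : Finset I → Set I}

theorem subset_fcl (S : Set I) : S ⊆ fcl F S := fun _ h => FGen.base h

theorem fclosed_fcl (S : Set I) : FClosed F (fcl F S) :=
  fun _ hA _ hz => FGen.rule (fun _ ha => hA ha) hz

theorem fcl_min {S M : Set I} (hS : S ⊆ M) (hM : FClosed F M) : fcl F S ⊆ M := by
  intro z hz
  have hz' : FGen F S z := hz
  clear hz
  induction hz' with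
  | base h => exact hS h
  | rule _ h ih => exact hM _ (fun a ha => ih a ha) h

theorem fcl_mono {S S' : Set I} (h : S ⊆ S') : fcl F S ⊆ fcl F S' :=
  fcl_min (h.trans (subset_fcl S')) (fclosed_fcl S')

theorem fcl_eq {S : Set I} (hS : FClosed F S) : fcl F S = S :=
  Subset.antisymm (fcl_min subset_rfl hS) (subset_fcl S)

/-- Every element of the closure lies in the closure of a finite subset. -/
theorem fcl_finitary {S : Set I} {z : I} (hz : z ∈ fcl F S) :
    ∃ B : Finset I, (B : Set I) ⊆ S ∧ z ∈ fcl F (B : Set I) := by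
  classical
  have hz' : FGen F S z := hz
  clear hz
  induction hz' with
  | @base z h =>
    exact ⟨{z}, by simpa using h, subset_fcl _ (by simp)⟩
  | @rule A z _ h ih =>
    choose! B hB1 hB2 using ih
    refine ⟨A.biUnion B, ?_, ?_⟩
    · intro b hb
      simp only [Finset.coe_biUnion, mem_iUnion] at hb
      obtain ⟨a, ha, hb⟩ := hb
      exact hB1 a ha hb
    · refine fclosed_fcl _ A (fun a ha => ?_) h
      refine fcl_mono ?_ (hB2 a ha)
      intro b hb
      simp only [Finset.coe_biUnion, mem_iUnion]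
      exact ⟨a, ha, hb⟩

/-- Size of the closure. -/
theorem mk_fcl_le (hF : ∀ A, (F A).Countable) {ν : Cardinal.{v}} (hν : ℵ₀ ≤ ν) {S : Set I}
    (hS : #S ≤ ν) : #(fcl F S) ≤ ν := by
  classical
  let nxt : Set I → Set I := fun N => N ∪ ⋃ A : {A : Finset I // (A : Set I) ⊆ N}, F A.1
  let St : ℕ → Set I := fun n => nxt^[n] S
  have hSt : ∀ n, St (n + 1) = nxt (St n) := fun n => Function.iterate_succ_apply' _ _ _
  have hcard : ∀ n, #(St n) ≤ ν := by
    intro n
    induction n with
    | zero => exact hS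
    | succ n ih =>
      rw [hSt]
      refine (Cardinal.mk_union_le _ _).trans ?_
      refine Cardinal.add_le_of_le hν ih ?_
      have h1 : #{A : Finset I // (A : Set I) ⊆ St n} ≤ ν := by
        have h2 : #{A : Finset I // (A : Set I) ⊆ St n} ≤ #(Finset (St n)) := by
          refine Cardinal.mk_le_of_injective
            (f := fun A => (A.1.subtype (· ∈ St n) : Finset (St n))) ?_
          intro A B hAB
          apply Subtype.ext
          have h3 := congrArg (Finset.map (Function.Embedding.subtype (· ∈ St n))) hAB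
          simp only [Finset.subtype_map] at h3
          have h4 : ∀ C : {A : Finset I // (A : Set I) ⊆ St n},
              C.1.filter (· ∈ St n) = C.1 := by
            intro C
            rw [Finset.filter_eq_self]
            exact fun a ha => C.2 ha
          rw [h4, h4] at h3
          exact h3
        refine h2.trans ?_
        rcases lt_or_ge (#(St n)) ℵ₀ with h | h
        · have hfin : Finite (St n) := Cardinal.mk_lt_aleph0_iff.mp h
          exact (Cardinal.mk_lt_aleph0_iff.mpr inferInstance).le.trans hν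
        · have hinf : Infinite (St n) := Cardinal.infinite_iff.mpr h
          rw [Cardinal.mk_finset_of_infinite]
          exact ih
      refine (Cardinal.mk_iUnion_le _).trans ?_
      refine (mul_le_mul' h1 (ciSup_le' fun A => ?_)).trans (Cardinal.mul_eq_self hν).le
      exact (Cardinal.le_aleph0_iff_set_countable.mpr (hF A.1)).trans hν
  have hmono1 : ∀ n, St n ⊆ St (n + 1) := by
    intro n z hz
    rw [hSt]
    exact Or.inl hz
  have hmono : Monotone St := monotone_nat_of_le_succ hmono1
  have hsub : fcl F S ⊆ ⋃ n : ULift.{v} ℕ, St n.down := by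
    refine fcl_min ?_ ?_
    · intro z hz
      exact mem_iUnion.mpr ⟨⟨0⟩, hz⟩
    · intro A hA z hz
      have h1 : ∀ a ∈ A, ∃ n, a ∈ St n := by
        intro a ha
        obtain ⟨n, hn⟩ := mem_iUnion.mp (hA ha)
        exact ⟨n.down, hn⟩
      choose! n hn using h1
      refine mem_iUnion.mpr ⟨⟨A.sup n + 1⟩, ?_⟩
      show z ∈ St (A.sup n + 1)
      rw [hSt]
      refine Or.inr (mem_iUnion.mpr ⟨⟨A, ?_⟩, hz⟩)
      intro a ha
      exact hmono (Finset.le_sup (f := n) ha) (hn a ha)
  refine (Cardinal.mk_le_mk_of_subset hsub).trans ?_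
  refine (Cardinal.mk_iUnion_le (fun n : ULift.{v} ℕ => St n.down)).trans ?_
  have h1 : (⨆ n : ULift.{v} ℕ, #(St n.down)) ≤ ν :=
    ciSup_le' fun n : ULift.{v} ℕ => hcard n.down
  have h2 : #(ULift.{v} ℕ) ≤ ν := by simpa using hν
  exact (mul_le_mul' h2 h1).trans (Cardinal.mul_eq_self hν).le

theorem countable_fcl (hF : ∀ A, (F A).Countable) {S : Set I} (hS : S.Countable) :
    (fcl F S).Countable := by
  rw [← Cardinal.le_aleph0_iff_set_countable] at hS ⊢
  exact mk_fcl_le hF le_rfl hS

/-- The descending chain condition for the closed sets of `F`. -/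
def DCCof (F : Finset I → Set I) : Prop :=
  ∀ M : ℕ → Set I, (∀ n, FClosed F (M n)) → Antitone M → ∃ n, ∀ m, n ≤ m → M m = M n

/-- Under the descending chain condition intersections of closed sets are finite
intersections. -/
theorem exists_finite_inter (hdcc : DCCof F) {X : Type u} (M : X → Set I)
    (hM : ∀ x, FClosed F (M x)) (T : Set X) :
    ∃ E : Finset X, (∀ x ∈ E, x ∈ T) ∧ ∀ i, (∀ x ∈ E, i ∈ M x) → ∀ x ∈ T, i ∈ M x := by
  classical
  by_contra hcon
  push Not at hcon
  have hstep : ∀ E : {E : Finset X // ∀ x ∈ E, x ∈ T}, ∃ i, (∀ x ∈ E.1, i ∈ M x) ∧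
      ∃ x ∈ T, i ∉ M x := fun E => hcon E.1 E.2
  choose i hi1 g hg1 hg2 using hstep
  let nxt : {E : Finset X // ∀ x ∈ E, x ∈ T} → {E : Finset X // ∀ x ∈ E, x ∈ T} :=
    fun E => ⟨insert (g E) E.1, by
      intro x hx
      rcases Finset.mem_insert.1 hx with rfl | h
      · exact hg1 E
      · exact E.2 x h⟩
  let q : ℕ → {E : Finset X // ∀ x ∈ E, x ∈ T} := fun n => nxt^[n] ⟨∅, by simp⟩
  have hq : ∀ n, q (n + 1) = nxt (q n) := fun n => Function.iterate_succ_apply' _ _ _
  obtain ⟨n, hn⟩ := hdcc (fun n => {i | ∀ x ∈ (q n).1, i ∈ M x}) (by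
    intro n A hA z hz x hx
    exact hM x A (fun a ha => hA ha x hx) hz) (by
    refine antitone_nat_of_succ_le fun n => ?_
    intro i hi x hx
    refine hi x ?_
    rw [hq]
    exact Finset.mem_insert_of_mem hx)
  have h1 : i (q n) ∈ {i | ∀ x ∈ (q n).1, i ∈ M x} := hi1 (q n)
  rw [← hn (n + 1) (Nat.le_succ n)] at h1
  refine hg2 (q n) (h1 (g (q n)) ?_)
  rw [hq]
  exact Finset.mem_insert_self _ _

/-- Reverse-free lists: the newest element comes first, and `C` is a set of even newer
elements. -/
def RFree (F : Finset I → Set I) : List I → Set I → Prop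
  | [], _ => True
  | i :: r, C => i ∉ fcl F C ∧ RFree F r (insert i C)

theorem RFree.mono {r : List I} : ∀ {C C' : Set I}, C ⊆ C' → RFree F r C' → RFree F r C := by
  induction r with
  | nil => intro C C' _ _; trivial
  | cons i r ih =>
    rintro C C' h ⟨h1, h2⟩
    exact ⟨fun hi => h1 (fcl_mono h hi), ih (insert_subset_insert h) h2⟩

/-- Extension of a list by one newer element such that the result is reverse-free. -/
def Ext (F : Finset I → Set I) (C : Set I) (r' r : List I) : Prop :=
  ∃ i ∈ C, r' = i :: r ∧ RFree F r' ∅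

theorem wf_ext (hdcc : DCCof F) (C : Set I) : WellFounded (Ext F C) := by
  rw [wellFounded_iff_isEmpty_descending_chain]
  refine ⟨?_⟩
  rintro ⟨r, hr⟩
  choose i _ hi1 hi2 using hr
  have key : ∀ n k, RFree F (r (k + 1)) {j | ∃ m, k + 1 ≤ m ∧ m < k + 1 + n ∧ j = i m} := by
    intro n
    induction n with
    | zero =>
      intro k
      refine RFree.mono ?_ (hi2 k)
      rintro j ⟨m, h1, h2, -⟩
      omega
    | succ n ih =>
      intro k
      have h1 := ih (k + 1)
      rw [hi1 (k + 1)] at h1
      refine RFree.mono ?_ h1.2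
      rintro j ⟨m, h2, h3, rfl⟩
      rcases Nat.lt_or_ge (k + 1) m with h | h
      · exact Or.inr ⟨m, h, by omega, rfl⟩
      · have : m = k + 1 := by omega
        exact Or.inl (by rw [this])
  obtain ⟨n, hn⟩ := hdcc (fun n => fcl F {j | ∃ m, n ≤ m ∧ j = i m})
    (fun n => fclosed_fcl _) (by
      refine antitone_nat_of_succ_le fun n => fcl_mono ?_
      rintro j ⟨m, hm, rfl⟩
      exact ⟨m, by omega, rfl⟩)
  have h1 : i n ∈ fcl F {j | ∃ m, n ≤ m ∧ j = i m} := subset_fcl _ ⟨n, le_rfl, rfl⟩
  have h2 := hn (n + 1) (Nat.le_succ n)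
  rw [← h2] at h1
  obtain ⟨B, hB1, hB2⟩ := fcl_finitary h1
  have h3 : ∃ N, (B : Set I) ⊆ {j | ∃ m, n + 1 ≤ m ∧ m < n + 1 + N ∧ j = i m} := by
    have h4 : ∀ b ∈ B, ∃ m, n + 1 ≤ m ∧ b = i m := fun b hb => hB1 hb
    choose! m hm1 hm2 using h4
    refine ⟨B.sup m + 1, fun b hb => ⟨m b, hm1 b hb, ?_, hm2 b hb⟩⟩
    have : m b ≤ B.sup m := Finset.le_sup (f := m) hb
    omega
  obtain ⟨N, hN⟩ := h3
  have h5 := key N n
  rw [hi1 n] at h5
  exact h5.1 (fcl_mono hN hB2)

end Pool.Agent.MP_e848aa_gt.Closed
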