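import Pool.Agent.MP_e848aa_gt.Closed.Omega

/-!
Points whose fibre is covered by `κ` many members of a point-countable family, but not by fewer,
for `κ` an aleph with finite index: intersections of `κ` many neighbourhoods.
-/

namespace Pool.Agent.MP_e848aa_gt.Closed

open Set Cardinal
open Pool.Agent.MP_e848aa_gt.FreeSet

universe u v w

/-- Intersections of fewer than `μ` neighbourhoods of a point of `H` contain a relative
neighbourhood. -/
def RelPlt {Y : Type v} [TopologicalSpace Y] (H : Set Y) (μ : Cardinal.{v}) : Prop :=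
  ∀ y ∈ H, ∀ (Λ : Type v) (E : Λ → Set Y), #Λ < μ → (∀ a, IsOpen (E a)) → (∀ a, y ∈ E a) →
    ∃ G, IsOpen G ∧ y ∈ G ∧ ∀ z ∈ G, z ∈ H → ∀ a, z ∈ E a

/-- Auxiliary covering statement. -/
def ClaimAt {X : Type u} {Y : Type v} [TopologicalSpace Y] (T : Y → Set X)
    {N : Type v} (V : N → Set X) (H : Set Y) (bad : Y → Prop) (J : Set N) (y : Y)
    (κ : Cardinal.{v}) : Prop :=
  ∀ J' : Set N, J' ⊆ J → #J' ≤ κ → ∃ G : Set Y, IsOpen G ∧ y ∈ G ∧ ∀ z ∈ G, z ∈ H → bad z →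
    ∃ Q : Set N, Q ⊆ J' ∧ #Q < κ ∧ T z ⊆ (⋃ i ∈ Q, V i) ∪ ⋃ i ∈ J \ J', V i

/-- A maximal disjoint subfamily. -/
theorem exists_maximal_disjoint {N : Type v} (𝒮 : Set (Set N)) :
    ∃ 𝒟 ⊆ 𝒮, 𝒟.PairwiseDisjoint id ∧ ∀ S ∈ 𝒮, S.Nonempty → (S ∩ ⋃₀ 𝒟).Nonempty := by
  classical
  obtain ⟨𝒟, h𝒟⟩ := zorn_subset {𝒟 : Set (Set N) | 𝒟 ⊆ 𝒮 ∧ 𝒟.PairwiseDisjoint id} (by
    intro c hc hchain
    refine ⟨⋃₀ c, ⟨?_, ?_⟩, fun s hs => subset_sUnion_of_mem hs⟩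
    · exact sUnion_subset fun s hs => (hc hs).1
    · exact (Set.pairwiseDisjoint_sUnion hchain.directedOn).mpr fun s hs => (hc hs).2)
  refine ⟨𝒟, h𝒟.prop.1, h𝒟.prop.2, fun S hS hne => ?_⟩
  by_contra hcon
  rw [Set.not_nonempty_iff_eq_empty] at hcon
  have h1 : insert S 𝒟 ∈ {𝒟 : Set (Set N) | 𝒟 ⊆ 𝒮 ∧ 𝒟.PairwiseDisjoint id} := by
    refine ⟨insert_subset hS h𝒟.prop.1, h𝒟.prop.2.insert ?_⟩
    intro D hD _
    rw [Set.disjoint_iff_inter_eq_empty]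
    show S ∩ D = ∅
    rw [Set.eq_empty_iff_forall_notMem] at hcon ⊢
    rintro i ⟨hi1, hi2⟩
    exact hcon i ⟨hi1, D, hD, hi2⟩
  have h2 : S ∈ 𝒟 := h𝒟.le_of_ge h1 (subset_insert S 𝒟) (mem_insert S 𝒟)
  obtain ⟨i, hi⟩ := hne
  have h3 : i ∈ S ∩ ⋃₀ 𝒟 := ⟨hi, S, h2, hi⟩
  rw [hcon] at h3
  exact h3

theorem claim_step {X : Type u} {Y : Type v} [TopologicalSpace X] [TopologicalSpace Y]
    {f : X → Y} {T : Y → Set X} (hT : FibreSel f T) {N : Type v} {V : N → Set X}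
    (hVo : ∀ n, IsOpen (V n)) (hVc : ∀ x, {n | x ∈ V n}.Countable) {H : Set Y}
    {bad : Y → Prop} {J : Set N} {y : Y} (hy : T y ⊆ ⋃ n ∈ J, V n) {κ : Cardinal.{v}}
    (hκ : ℵ₀ ≤ κ) (h : ClaimAt T V H bad J y κ) : ClaimAt T V H bad J y (Order.succ κ) := by
  classical
  intro J' hJ' hcard
  by_cases hle : #J' ≤ κ
  · obtain ⟨G, g1, g2, g3⟩ := h J' hJ' hle
    refine ⟨G, g1, g2, fun z hz hzH hb => ?_⟩
    obtain ⟨Q, q1, q2, q3⟩ := g3 z hz hzH hb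
    exact ⟨Q, q1, q2.trans (Order.lt_succ κ), q3⟩
  obtain ⟨g, hg, hseg⟩ := exists_rank J' (Order.succ κ) hcard
  let seg : J' → Set N := fun i => Subtype.val '' {j : J' | g j < g i}
  have hseg1 : ∀ i, seg i ⊆ J' := by
    rintro i _ ⟨j, _, rfl⟩
    exact j.2
  have hseg2 : ∀ i, #(seg i) ≤ κ := fun i =>
    Cardinal.mk_image_le.trans (Order.lt_succ_iff.mp (hseg i))
  choose G g1 g2 g3 using fun i : J' => h (seg i) ((hseg1 i).trans hJ') (hseg2 i)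
  refine ⟨{z | T z ⊆ (⋃ i : J', V i.1 ∩ f ⁻¹' (G i)) ∪ ⋃ i ∈ J \ J', V i}, ?_, ?_, ?_⟩
  · exact hT.op _ ((isOpen_iUnion fun i => (hVo _).inter ((g1 i).preimage hT.cont)).union
      (isOpen_biUnion fun i _ => hVo i))
  · intro x hx
    obtain ⟨i, hi, hxi⟩ := mem_iUnion₂.mp (hy hx)
    by_cases hiJ : i ∈ J'
    · refine Or.inl (mem_iUnion.mpr ⟨⟨i, hiJ⟩, hxi, ?_⟩)
      rw [mem_preimage, hT.fib y x hx]
      exact g2 _
    · exact Or.inr (mem_biUnion ⟨hi, hiJ⟩ hxi)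
  intro z hz hzH hb
  let A : Set J' := {i | z ∈ G i}
  have hzA : T z ⊆ (⋃ i ∈ A, V i.1) ∪ ⋃ i ∈ J \ J', V i := by
    intro x hx
    rcases hz hx with h1 | h1
    · obtain ⟨i, hi1, hi2⟩ := mem_iUnion.mp h1
      rw [mem_preimage, hT.fib z x hx] at hi2
      exact Or.inl (mem_biUnion (show i ∈ A from hi2) hi1)
    · exact Or.inr h1
  by_cases hA : #A ≤ κ
  · refine ⟨Subtype.val '' A, ?_, lt_of_le_of_lt (Cardinal.mk_image_le.trans hA)
      (Order.lt_succ κ), ?_⟩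
    · rintro _ ⟨i, _, rfl⟩
      exact i.2
    · intro x hx
      rcases hzA hx with h1 | h1
      · obtain ⟨i, hi1, hi2⟩ := mem_iUnion₂.mp h1
        exact Or.inl (mem_biUnion ⟨i, hi1, rfl⟩ hi2)
      · exact Or.inr h1
  -- cofinality
  have hcof : ∀ S : Set J', #S ≤ κ → ∃ i ∈ A, ∀ j ∈ S, g j < g i := by
    intro S hS
    by_contra hcon
    push Not at hcon
    apply hA
    have h1 : A ⊆ ⋃ j : S, {i | g i ≤ g j.1} := by
      intro i hi
      obtain ⟨j, hj, hij⟩ := hcon i hi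
      exact mem_iUnion.mpr ⟨⟨j, hj⟩, hij⟩
    refine (Cardinal.mk_le_mk_of_subset h1).trans ((Cardinal.mk_iUnion_le _).trans ?_)
    have h2 : ∀ j : J', #{i | g i ≤ g j} ≤ κ := by
      intro j
      have h3 : {i | g i ≤ g j} ⊆ {i | g i < g j} ∪ {j} := by
        intro i hi
        rcases lt_or_eq_of_le (show g i ≤ g j from hi) with h | h
        · exact Or.inl h
        · exact Or.inr (hg h)
      refine (Cardinal.mk_le_mk_of_subset h3).trans ((Cardinal.mk_union_le _ _).trans ?_)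
      refine Cardinal.add_le_of_le hκ (Order.lt_succ_iff.mp (hseg j)) ?_
      simpa using Cardinal.one_le_aleph0.trans hκ
    have h4 : (⨆ j : S, #{i | g i ≤ g j.1}) ≤ κ := ciSup_le' fun j : S => h2 j.1
    exact (mul_le_mul' hS h4).trans (Cardinal.mul_eq_self hκ).le
  let s : X → Set J' := fun x => {i | x ∈ V i.1}
  have hsc : ∀ x, (s x).Countable := fun x =>
    (hVc x).preimage_of_injOn (f := fun i : J' => i.1) Subtype.val_injective.injOn
  let T' : Set X := {x | x ∈ T z ∧ ∀ i ∈ J \ J', x ∉ V i}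
  obtain ⟨𝒟, d1, d2, d3⟩ := exists_maximal_disjoint (s '' T')
  have hsne : ∀ x ∈ T', (s x).Nonempty := by
    rintro x ⟨hx1, hx2⟩
    rcases hzA hx1 with h1 | h1
    · obtain ⟨i, _, hi2⟩ := mem_iUnion₂.mp h1
      exact ⟨i, hi2⟩
    · obtain ⟨i, hi1, hi2⟩ := mem_iUnion₂.mp h1
      exact absurd hi2 (hx2 i hi1)
  have hunion : ∀ 𝒟' ⊆ 𝒟, #𝒟' ≤ κ → #(⋃₀ 𝒟' : Set J') ≤ κ := by
    intro 𝒟' hsub hc
    rw [sUnion_eq_iUnion]
    refine (Cardinal.mk_iUnion_le _).trans ?_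
    have h1 : (⨆ D : 𝒟', #D.1) ≤ κ := by
      refine ciSup_le' fun D : 𝒟' => ?_
      obtain ⟨x, _, hx⟩ := d1 (hsub D.2)
      rw [← hx]
      exact (Cardinal.le_aleph0_iff_set_countable.mpr (hsc x)).trans hκ
    exact (mul_le_mul' hc h1).trans (Cardinal.mul_eq_self hκ).le
  by_cases hD : #𝒟 ≤ κ
  · refine ⟨Subtype.val '' (⋃₀ 𝒟), ?_, lt_of_le_of_lt
      (Cardinal.mk_image_le.trans (hunion 𝒟 subset_rfl hD)) (Order.lt_succ κ), ?_⟩
    · rintro _ ⟨i, _, rfl⟩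
      exact i.2
    · intro x hx
      by_cases hx' : ∃ i ∈ J \ J', x ∈ V i
      · obtain ⟨i, hi1, hi2⟩ := hx'
        exact Or.inr (mem_biUnion hi1 hi2)
      · push Not at hx'
        obtain ⟨i, hi1, hi2⟩ := d3 (s x) ⟨x, ⟨hx, hx'⟩, rfl⟩ (hsne x ⟨hx, hx'⟩)
        exact Or.inl (mem_biUnion ⟨i, hi2, rfl⟩ hi1)
  · exfalso
    obtain ⟨𝒟₀, hsub, hcard₀⟩ := Cardinal.le_mk_iff_exists_subset.mp (not_le.mp hD).le
    obtain ⟨i, hiA, hi⟩ := hcof (⋃₀ 𝒟₀) (hunion 𝒟₀ hsub hcard₀.le)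
    obtain ⟨Q, q1, q2, q3⟩ := g3 i z hiA hzH hb
    have hmeet : ∀ D : 𝒟₀, ∃ j : Q, ∃ hj : j.1 ∈ J', (⟨j.1, hj⟩ : J') ∈ D.1 := by
      intro D
      obtain ⟨x, hx, hxD⟩ := d1 (hsub D.2)
      rcases q3 hx.1 with h1 | h1
      · obtain ⟨j, hj1, hj2⟩ := mem_iUnion₂.mp h1
        have hj3 : j ∈ J' := hseg1 i (q1 hj1)
        refine ⟨⟨j, hj1⟩, hj3, ?_⟩
        rw [← hxD]
        exact hj2
      · obtain ⟨j, ⟨hj1, hj1'⟩, hj2⟩ := mem_iUnion₂.mp h1
        by_cases hj3 : j ∈ J'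
        · exfalso
          apply hj1'
          refine ⟨⟨j, hj3⟩, hi _ ⟨D.1, D.2, ?_⟩, rfl⟩
          rw [← hxD]
          exact hj2
        · exact absurd hj2 (hx.2 j ⟨hj1, hj3⟩)
    choose j hj1 hj2 using hmeet
    have hinj : Function.Injective j := by
      intro D D' hDD'
      by_contra hne
      have h1 := d2 (hsub D.2) (hsub D'.2) (fun h => hne (Subtype.ext h))
      have h2 : (⟨(j D).1, hj1 D⟩ : J') ∈ D'.1 := by
        have h3 := hj2 D'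
        have h4 : (⟨(j D).1, hj1 D⟩ : J') = ⟨(j D').1, hj1 D'⟩ :=
          Subtype.ext (congrArg (fun q : Q => q.1) hDD')
        rw [h4]
        exact h3
      exact (Set.disjoint_left.mp h1 (hj2 D)) h2
    have h5 := Cardinal.mk_le_of_injective hinj
    rw [hcard₀] at h5
    exact absurd h5 (not_le.mpr q2)

theorem claim_base {X : Type u} {Y : Type v} [TopologicalSpace X] [TopologicalSpace Y]
    {f : X → Y} {T : Y → Set X} (hT : FibreSel f T) {N : Type v} {V : N → Set X}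
    (hVo : ∀ n, IsOpen (V n)) {H : Set Y} {J : Set N} {y : Y}
    (hy : T y ⊆ ⋃ n ∈ J, V n) {κ : Cardinal.{v}} (hκ : ℵ₀ ≤ κ) (hP : RelPlt H κ)
    (hyH : y ∈ H) (Λ : Type v) (hΛ : #Λ = κ) (E : Λ → Set Y) (hE : ∀ a, IsOpen (E a))
    (hEy : ∀ a, y ∈ E a) : ClaimAt T V H (fun z => ∃ a, z ∉ E a) J y κ := by
  classical
  intro J' hJ' hcard
  obtain ⟨g, hg, hseg⟩ := exists_rank Λ κ hΛ.le
  have hseg' : ∀ a, #{b | g b ≤ g a} < κ := by
    intro a
    have h3 : {i | g i ≤ g a} ⊆ {i | g i < g a} ∪ {a} := by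
      intro i hi
      rcases lt_or_eq_of_le (show g i ≤ g a from hi) with h | h
      · exact Or.inl h
      · exact Or.inr (hg h)
    refine lt_of_le_of_lt ((Cardinal.mk_le_mk_of_subset h3).trans (Cardinal.mk_union_le _ _)) ?_
    refine Cardinal.add_lt_of_lt hκ (hseg a) ?_
    simpa using Cardinal.one_lt_aleph0.trans_le hκ
  have hE' := fun a => hP y hyH {b | g b ≤ g a} (fun b => E b.1) (hseg' a) (fun b => hE b.1)
    (fun b => hEy b.1)
  choose E' e1 e2 e3 using hE'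
  obtain ⟨α⟩ := (Cardinal.le_def _ _).mp (hcard.trans hΛ.ge)
  refine ⟨{z | T z ⊆ (⋃ i : J', V i.1 ∩ f ⁻¹' (E' (α i))) ∪ ⋃ i ∈ J \ J', V i}, ?_, ?_, ?_⟩
  · exact hT.op _ ((isOpen_iUnion fun i => (hVo _).inter ((e1 _).preimage hT.cont)).union
      (isOpen_biUnion fun i _ => hVo i))
  · intro x hx
    obtain ⟨i, hi, hxi⟩ := mem_iUnion₂.mp (hy hx)
    by_cases hiJ : i ∈ J'
    · refine Or.inl (mem_iUnion.mpr ⟨⟨i, hiJ⟩, hxi, ?_⟩)
      rw [mem_preimage, hT.fib y x hx]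
      exact e2 _
    · exact Or.inr (mem_biUnion ⟨hi, hiJ⟩ hxi)
  rintro z hz hzH ⟨b, hb⟩
  refine ⟨Subtype.val '' {i : J' | g (α i) < g b}, ?_, ?_, ?_⟩
  · rintro _ ⟨i, _, rfl⟩
    exact i.2
  · refine lt_of_le_of_lt (Cardinal.mk_image_le.trans ?_) (hseg b)
    exact Cardinal.mk_le_of_injective (f := fun i : {i : J' | g (α i) < g b} =>
      (⟨α i.1, i.2⟩ : {a | g a < g b})) (fun i j hij =>
        Subtype.ext (α.injective (congrArg Subtype.val hij)))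
  · intro x hx
    rcases hz hx with h1 | h1
    · obtain ⟨i, hi1, hi2⟩ := mem_iUnion.mp h1
      rw [mem_preimage, hT.fib z x hx] at hi2
      refine Or.inl (mem_biUnion ⟨i, ?_, rfl⟩ hi1)
      by_contra hcon
      exact hb (e3 (α i) z hi2 hzH ⟨b, show g b ≤ g (α i) from not_lt.mp hcon⟩)
    · exact Or.inr h1

theorem relPlt_aleph0 {Y : Type v} [TopologicalSpace Y] (H : Set Y) : RelPlt H ℵ₀ := by
  intro y _ Λ E hΛ hE hEy
  have : Finite Λ := Cardinal.mk_lt_aleph0_iff.mp hΛ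
  exact ⟨⋂ a, E a, isOpen_iInter_of_finite hE, mem_iInter.mpr hEy,
    fun z hz _ a => mem_iInter.mp hz a⟩

theorem aleph_succ_nat (k : ℕ) : (ℵ_ ((k + 1 : ℕ) : Ordinal.{v})) = Order.succ (ℵ_ (k : Ordinal.{v})) := by
  rw [Cardinal.succ_aleph]
  push_cast
  rfl

/-- Neighbourhoods of points with fibres of a fixed size. -/
theorem relPlt_of_exact {X : Type u} {Y : Type v} [TopologicalSpace X] [TopologicalSpace Y]
    {f : X → Y} {T : Y → Set X} (hT : FibreSel f T) {N : Type v} {V : N → Set X}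
    (hVo : ∀ n, IsOpen (V n)) (hVc : ∀ x, {n | x ∈ V n}.Countable) {H : Set Y} (k : ℕ)
    (h1 : ∀ y ∈ H, ∃ P : Set N, #P ≤ ℵ_ (k : Ordinal.{v}) ∧ T y ⊆ ⋃ n ∈ P, V n)
    (h2 : ∀ y ∈ H, ∀ P : Set N, #P < ℵ_ (k : Ordinal.{v}) → ¬ T y ⊆ ⋃ n ∈ P, V n) :
    RelPlt H (ℵ_ ((k + 1 : ℕ) : Ordinal.{v})) := by
  classical
  have key : ∀ p : ℕ, p ≤ k + 1 → RelPlt H (ℵ_ (p : Ordinal.{v})) := by
    intro p
    induction p with
    | zero =>
      intro _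
      simpa using relPlt_aleph0 H
    | succ p ih =>
      intro hp
      have ihp := ih (by omega)
      intro y hy Λ E hΛ hE hEy
      rw [aleph_succ_nat, Order.lt_succ_iff] at hΛ
      rcases lt_or_eq_of_le hΛ with hlt | heq
      · exact ihp y hy Λ E hlt hE hEy
      obtain ⟨J, hJ1, hJ2⟩ := h1 y hy
      have hcl : ∀ j : ℕ, ClaimAt T V H (fun z => ∃ a, z ∉ E a) J y
          (ℵ_ ((p + j : ℕ) : Ordinal.{v})) := by
        intro j
        induction j with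
        | zero =>
          exact claim_base hT hVo hJ2 (Cardinal.aleph0_le_aleph _) ihp hy Λ heq E hE hEy
        | succ j ihj =>
          have h3 := claim_step hT hVo hVc hJ2 (Cardinal.aleph0_le_aleph _) ihj
          rw [← aleph_succ_nat] at h3
          exact h3
      have h4 := hcl (k - p)
      rw [show p + (k - p) = k by omega] at h4
      obtain ⟨G, g1, g2, g3⟩ := h4 J subset_rfl hJ1
      refine ⟨G, g1, g2, fun z hz hzH a => ?_⟩
      by_contra hcon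
      obtain ⟨Q, _, q2, q3⟩ := g3 z hz hzH ⟨a, hcon⟩
      refine h2 z hzH Q q2 (q3.trans (union_subset subset_rfl ?_))
      rw [sdiff_self]
      simp
  exact key (k + 1) le_rfl

end Pool.Agent.MP_e848aa_gt.Closed
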