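import Pool.Agent.MP_e848aa_gt.Closed.CTrick

/-!
Descending induction on the number of members of point-countable families which are needed to
cover the fibres.
-/

namespace Pool.Agent.MP_e848aa_gt.Closed

open Set Cardinal
open Pool.Agent.MP_e848aa_gt.FreeSet

universe u v w

/-- For every point-countable family the points whose fibre is not covered by `κ` many members
form a coverable set. -/
def Rem {X : Type u} {Y : Type v} [TopologicalSpace X] [TopologicalSpace Y]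
    (T : Y → Set X) (𝒰 : Set (Set Y)) (H : Set Y) (N : Type v) (κ : Cardinal.{v}) : Prop :=
  ∀ V : N → Set X, (∀ n, IsOpen (V n)) → (∀ x, {n | x ∈ V n}.Countable) →
    ∀ A : Set Y, IsClosed A → A ⊆ H → (∀ y ∈ A, T y ⊆ ⋃ n, V n) →
      Coverable 𝒰 {y | y ∈ A ∧ ∀ P : Set N, #P ≤ κ → ¬ T y ⊆ ⋃ n ∈ P, V n}

theorem coverable_union {Y : Type v} [TopologicalSpace Y] {𝒰 : Set (Set Y)} {A B : Set Y}
    (hA : Coverable 𝒰 A) (hB : Coverable 𝒰 B) : Coverable 𝒰 (A ∪ B) := by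
  refine (coverable_iUnion (fun b : Bool => bif b then A else B) ?_).mono_set ?_
  · intro b
    cases b
    · exact hB
    · exact hA
  · rintro y (h | h)
    · exact mem_iUnion.mpr ⟨true, h⟩
    · exact mem_iUnion.mpr ⟨false, h⟩

theorem stepHyp_of_rem {X : Type u} {Y : Type v} [TopologicalSpace X] [TopologicalSpace Y]
    (hX : Metalindelof X) {f : X → Y} {T : Y → Set X} (hT : FibreSel f T) {𝒰 : Set (Set Y)}
    {H : Set Y} {I : Type v} {κ : Cardinal.{v}} (h : Rem T 𝒰 H (I ⊕ Y) κ) :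
    StepHyp f T 𝒰 H (I ⊕ Y) κ := by
  classical
  intro A hA hAH G hG hGc
  obtain ⟨V, v1, v2, v3, v4⟩ := hX.shrinkOn (ι := I ⊕ Y) (fun n => f ⁻¹' (G n))
    (fun n => (hG n).preimage hT.cont) (f ⁻¹' A) (hA.preimage hT.cont)
    (fun x hx => hGc (f x) hx)
  have hVc : ∀ y ∈ A, T y ⊆ ⋃ n, V n := by
    intro y hy x hx
    obtain ⟨n, hn⟩ := v3 x (by rw [mem_preimage, hT.fib y x hx]; exact hy)
    exact mem_iUnion.mpr ⟨n, hn⟩
  obtain ⟨A', a1, a2, a3, a4⟩ := exists_remove hA (h V v1 v4 A hA hAH hVc)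
  have hc : ∀ y, ∃ P : Set (I ⊕ Y), #P ≤ κ ∧ (y ∈ A' → T y ⊆ ⋃ n ∈ P, V n) := by
    intro y
    by_cases hy : y ∈ A'
    · by_contra hcon
      push Not at hcon
      refine a4 y hy ⟨a2 hy, fun P hP hsub => (hcon P hP).2 hsub⟩
    · exact ⟨∅, by simp, fun h => absurd h hy⟩
  choose c c1 c2 using hc
  refine ⟨A', a1, a2, a3, V, fun n => n.elim (fun _ => ∅) c, v1, v2, v4, ?_, ?_⟩
  · intro n
    cases n with
    | inl i => simp
    | inr y => exact c1 y
  · intro y hy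
    exact ⟨Sum.inr y, c2 y hy⟩

theorem rem_step {X : Type u} {Y : Type v} [TopologicalSpace X] [TopologicalSpace Y]
    (hX : Metalindelof X) {f : X → Y} (hf : ClosedMapping f) {T : Y → Set X}
    (hT : FibreSel f T) {I : Type v} (U : I → Set Y) (hU : ∀ i, IsOpen (U i))
    (F : Finset I → Set I) (hF : ∀ A, (F A).Countable) (hdcc : DCCof F)
    (H : Set Y) (hH : IsClosed H) (hUc : ∀ y ∈ H, ∃ i, y ∈ U i) (k : ℕ)
    (h : Rem T (range U) H (I ⊕ Y) (ℵ_ ((k + 1 : ℕ) : Ordinal.{v}))) :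
    Rem T (range U) H (I ⊕ Y) (ℵ_ (k : Ordinal.{v})) := by
  classical
  intro V v1 v4 A hA hAH hVc
  obtain ⟨A₁, a1, a2, a3, M, m1, m2, m3, m4⟩ := chain hT (e := (Sum.inl : I → I ⊕ Y))
    Sum.inl_injective U hU _ (Cardinal.aleph0_le_aleph _) F hF hdcc H hH hUc
    (stepHyp_of_rem hX hT h)
  have hB1 := isClosed_bad hT v1 hA (fun P : Set (I ⊕ Y) => #P ≤ ℵ_ (k : Ordinal.{v}))
  obtain ⟨A₂, b1, b2, b3, b4⟩ := exists_remove (hB1.inter a1) (h V v1 v4 A hA hAH hVc)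
  have hP : RelPlt A₂ (Order.succ (ℵ_ ((k + 1 : ℕ) : Ordinal.{v}))) := by
    rw [← aleph_succ_nat]
    refine relPlt_of_exact hT v1 v4 (k + 1) ?_ ?_
    · intro y hy
      by_contra hcon
      push Not at hcon
      exact b4 y hy ⟨(b2 hy).1.1, fun P hP hsub => hcon P hP hsub⟩
    · intro y hy P hP
      rw [aleph_succ_nat, Order.lt_succ_iff] at hP
      exact (b2 hy).1.2 P hP
  obtain ⟨K, 𝒲, w1, w2, w3, w4, w5⟩ := exists_families hX hT U hU _
    (Cardinal.aleph0_le_aleph _) F hdcc A₂ b1 hP M m1 m2 m3 (fun y hy => m4 y (b2 hy).2)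
  have hK : #K < ℵ_ Ordinal.omega0 := by
    rw [← aleph_succ_nat] at w1
    refine lt_of_le_of_lt w1 (Cardinal.aleph_lt_aleph.mpr ?_)
    exact Ordinal.natCast_lt_omega0 _
  have h1 : Coverable (range U) A₂ :=
    (coverable_families' hX hf A₂ b1 hK 𝒲 w2 w4 w5).mono_refines (by
      intro W hW
      obtain ⟨k, hk⟩ := mem_iUnion.mp hW
      exact w3 k W hk)
  refine (coverable_union (coverable_union h1 b3) a3).mono_set ?_
  intro y hy
  by_cases h2 : y ∈ A₁
  · by_cases h3 : y ∈ A₂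
    · exact Or.inl (Or.inl h3)
    · exact Or.inl (Or.inr ⟨⟨hy, h2⟩, h3⟩)
  · exact Or.inr ⟨hAH hy.1, h2⟩

/-- Selections whose members have Lindelof number at most an aleph with finite index. -/
theorem coverable_of_selection {X : Type u} {Y : Type v} [TopologicalSpace X]
    [TopologicalSpace Y] (hX : Metalindelof X) {f : X → Y} (hf : ClosedMapping f)
    {T : Y → Set X} (hT : FibreSel f T) {I : Type v} (U : I → Set Y)
    (hU : ∀ i, IsOpen (U i)) (hdcc : HasDCC I) (H : Set Y) (hH : IsClosed H)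
    (hUc : ∀ y ∈ H, ∃ i, y ∈ U i) (n : ℕ)
    (hL : ∀ y ∈ H, ∀ V : I ⊕ Y → Set X, (∀ m, IsOpen (V m)) → T y ⊆ ⋃ m, V m →
      ∃ P : Set (I ⊕ Y), #P ≤ ℵ_ (n : Ordinal.{v}) ∧ T y ⊆ ⋃ m ∈ P, V m) :
    Coverable (range U) H := by
  classical
  obtain ⟨F, hF, hdcc⟩ := hdcc
  have htop : Rem T (range U) H (I ⊕ Y) (ℵ_ (n : Ordinal.{v})) := by
    intro V v1 _ A _ hAH hVc
    refine ⟨∅, by simp, fun V hV => by simp at hV, fun y => by simp, ?_⟩
    rintro y ⟨hy, hy'⟩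
    obtain ⟨P, hP1, hP2⟩ := hL y (hAH hy) V v1 (hVc y hy)
    exact absurd hP2 (hy' P hP1)
  have hall : ∀ j : ℕ, j ≤ n → Rem T (range U) H (I ⊕ Y) (ℵ_ ((n - j : ℕ) : Ordinal.{v})) := by
    intro j
    induction j with
    | zero => intro _; exact htop
    | succ j ih =>
      intro hj
      refine rem_step hX hf hT U hU F hF hdcc H hH hUc (n - (j + 1)) ?_
      rw [show n - (j + 1) + 1 = n - j by omega]
      exact ih (by omega)
  have h0 := hall n le_rfl
  rw [Nat.sub_self, Nat.cast_zero, Cardinal.aleph_zero] at h0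
  exact coverable_of_stepHyp hT (e := (Sum.inl : I → I ⊕ Y)) Sum.inl_injective U hU F hF hdcc
    H hH hUc (stepHyp_of_rem hX hT h0)

end Pool.Agent.MP_e848aa_gt.Closed
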