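import Pool.Agent.MP_e848aa_gt.Closed.Small
import Pool.Agent.MP_e848aa_gt.Closed.Chain

/-!
Closed images of metalindelof spaces: covers which are unions of fewer than aleph omega
point-countable families.
-/

namespace Pool.Agent.MP_e848aa_gt.Closed

open Set Cardinal
open Pool.Agent.MP_e848aa_gt.FreeSet

universe u v w

/-- The points of a closed set whose `T y` is not covered by few members form a closed set. -/
theorem isClosed_bad {X : Type u} {Y : Type v} [TopologicalSpace X] [TopologicalSpace Y]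
    {f : X → Y} {T : Y → Set X} (hT : FibreSel f T) {N : Type w} {V : N → Set X}
    (hV : ∀ n, IsOpen (V n)) {A : Set Y} (hA : IsClosed A) (p : Set N → Prop) :
    IsClosed {y | y ∈ A ∧ ∀ P : Set N, p P → ¬ T y ⊆ ⋃ n ∈ P, V n} := by
  have h1 : {y | y ∈ A ∧ ∀ P : Set N, p P → ¬ T y ⊆ ⋃ n ∈ P, V n} =
      A ∩ (⋃ (P : Set N) (_ : p P), {y | T y ⊆ ⋃ n ∈ P, V n})ᶜ := by
    ext y
    simp only [mem_ofPred_eq, mem_inter_iff, mem_compl_iff, mem_iUnion, not_exists]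
  rw [h1]
  exact hA.inter (isOpen_iUnion fun P => isOpen_iUnion fun _ =>
    hT.op _ (isOpen_biUnion fun n _ => hV n)).isClosed_compl

/-- Removing a coverable closed part. -/
theorem exists_remove {Y : Type v} [TopologicalSpace Y] {𝒰 : Set (Set Y)} {A B : Set Y}
    (hA : IsClosed A) (hB : Coverable 𝒰 B) :
    ∃ A' : Set Y, IsClosed A' ∧ A' ⊆ A ∧ Coverable 𝒰 (A \ A') ∧ ∀ y ∈ A', y ∉ B := by
  obtain ⟨𝒱, h1, h2, h3, h4⟩ := hB
  refine ⟨A \ ⋃₀ 𝒱, hA.sdiff (isOpen_sUnion h1), sdiff_subset, ⟨𝒱, h1, h2, h3, ?_⟩, ?_⟩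
  · rintro y ⟨hy1, hy2⟩
    by_contra hcon
    exact hy2 ⟨hy1, hcon⟩
  · rintro y ⟨_, hy⟩ hyB
    exact hy (h4 hyB)

/-- Covers with fewer than aleph omega members. -/
theorem coverable_small {X : Type u} {Y : Type v} [TopologicalSpace X]
    [TopologicalSpace Y] (hX : Metalindelof X) {f : X → Y} (hf : ClosedMapping f)
    (H : Set Y) (hH : IsClosed H) {I : Type v} (hI : #I < ℵ_ Ordinal.omega0)
    (U : I → Set Y) (hU : ∀ i, IsOpen (U i)) (hUc : ∀ y ∈ H, ∃ i, y ∈ U i) :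
    Coverable (range U) H := by
  classical
  rcases H.eq_empty_or_nonempty with rfl | ⟨y₀, hy₀⟩
  · exact ⟨∅, by simp, fun V hV => by simp at hV, fun y => by simp, by simp⟩
  obtain ⟨a₀, -⟩ := hUc y₀ hy₀
  have hne : Nonempty I := ⟨a₀⟩
  obtain ⟨F, hF, hdcc⟩ := hasDCC_of_lt_aleph_omega I hI
  obtain ⟨c, hcc, hcof⟩ := exists_cofinal_map I hI
  have hT := fibreSel_fibres hf
  refine coverable_of_stepHyp hT (e := (id : I → I)) Function.injective_id U hU F hF hdcc H hH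
    hUc ?_
  intro A hA hAH G hG hGc
  obtain ⟨V, v1, v2, v3, v4⟩ := hX.shrinkOn (ι := I) (fun n => f ⁻¹' (G n))
    (fun n => (hG n).preimage hf.continuous) (f ⁻¹' A) (hA.preimage hf.continuous)
    (fun x hx => hGc (f x) hx)
  have hB := isClosed_bad hT v1 hA (fun P : Set I => P.Countable)
  have hP : RelP {y | y ∈ A ∧ ∀ P : Set I, P.Countable → ¬ f ⁻¹' {y} ⊆ ⋃ n ∈ P, V n} := by
    rintro y ⟨hy, -⟩ E hE hEy
    obtain ⟨N, n1, n2, n3⟩ := exists_pnbhd hT F hF hdcc V v1 v4 y (fun x hx => by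
      have hx' : f x = y := hx
      obtain ⟨n, hn⟩ := v3 x (by rw [mem_preimage, hx']; exact hy)
      exact mem_iUnion.mpr ⟨n, hn⟩) E hE hEy
    exact ⟨N, n1, n2, fun z hz hzB => n3 z hz hzB.2⟩
  obtain ⟨A', a1, a2, a3, a4⟩ := exists_remove hA
    (coverable_of_relP hX hf _ hB hP hI U hU (fun y hy => hUc y (hAH hy.1)))
  refine ⟨A', a1, a2, a3, V, c, v1, v2, v4,
    fun n => Cardinal.le_aleph0_iff_set_countable.mpr (hcc n), ?_⟩
  intro y hy
  have h1 : ∃ P : Set I, P.Countable ∧ f ⁻¹' {y} ⊆ ⋃ n ∈ P, V n := by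
    by_contra hcon
    push Not at hcon
    exact a4 y hy ⟨a2 hy, fun P hP hsub => hcon P hP hsub⟩
  obtain ⟨P, hP1, hP2⟩ := h1
  obtain ⟨w, hw⟩ := hcof P hP1
  exact ⟨w, hP2.trans (biUnion_subset_biUnion_left hw)⟩

/-- Precise open refinements. -/
theorem exists_small_refinement {X : Type u} {Y : Type v} [TopologicalSpace X]
    [TopologicalSpace Y] (hX : Metalindelof X) {f : X → Y} (hf : ClosedMapping f)
    (H : Set Y) (hH : IsClosed H) {I : Type v} (hI : #I < ℵ_ Ordinal.omega0)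
    (U : I → Set Y) (hU : ∀ i, IsOpen (U i)) (hUc : ∀ y ∈ H, ∃ i, y ∈ U i) :
    ∃ U' : I → Set Y, (∀ i, IsOpen (U' i)) ∧ (∀ i, U' i ⊆ U i) ∧ (∀ y ∈ H, ∃ i, y ∈ U' i) ∧
      ∀ y, {i | y ∈ U' i}.Countable :=
  Coverable.shrink (coverable_small hX hf H hH hI U hU hUc)

/-- Unions of fewer than aleph omega point-countable families. -/
theorem coverable_families' {X : Type u} {Y : Type v} [TopologicalSpace X]
    [TopologicalSpace Y] (hX : Metalindelof X) {f : X → Y} (hf : ClosedMapping f)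
    (H : Set Y) (hH : IsClosed H) {I : Type v} (hI : #I < ℵ_ Ordinal.omega0)
    (𝒲 : I → Set (Set Y)) (ho : ∀ i, ∀ W ∈ 𝒲 i, IsOpen W) (hp : ∀ i, PointCountable (𝒲 i))
    (hc : H ⊆ ⋃₀ ⋃ i, 𝒲 i) : Coverable (⋃ i, 𝒲 i) H := by
  classical
  obtain ⟨U, u1, u2, u3, u4⟩ := exists_small_refinement hX hf H hH hI (fun i => ⋃₀ 𝒲 i)
    (fun i => isOpen_sUnion (ho i)) (by
      intro y hy
      obtain ⟨W, hW, hyW⟩ := hc hy
      obtain ⟨i, hi⟩ := mem_iUnion.mp hW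
      exact ⟨i, W, hi, hyW⟩)
  refine coverable_of_indexed (ι := Σ i, 𝒲 i) (fun p => p.2.1 ∩ U p.1) ?_ ?_ ?_ ?_
  · exact fun p => (ho p.1 p.2.1 p.2.2).inter (u1 p.1)
  · exact fun p => ⟨p.2.1, mem_iUnion.mpr ⟨p.1, p.2.2⟩, inter_subset_left⟩
  · intro y hy
    obtain ⟨i, hi⟩ := u3 y hy
    obtain ⟨W, hW, hyW⟩ := u2 i hi
    exact ⟨⟨i, ⟨W, hW⟩⟩, hyW, hi⟩
  · intro y
    have h1 : (⋃ i ∈ {i | y ∈ U i}, (fun W : 𝒲 i => (⟨i, W⟩ : Σ i, 𝒲 i)) ''
        {W : 𝒲 i | y ∈ W.1}).Countable := by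
      refine (u4 y).biUnion fun i _ => Set.Countable.image ?_ _
      refine ((hp i y).preimage_of_injOn (f := fun W : 𝒲 i => W.1)
        Subtype.val_injective.injOn).mono ?_
      intro W hW
      exact ⟨W.2, hW⟩
    refine h1.mono ?_
    rintro ⟨i, W⟩ ⟨h2, h3⟩
    exact mem_biUnion h3 ⟨W, h2, rfl⟩

/-- Unions of fewer than aleph omega point-countable families, in any universe. -/
theorem coverable_families {X : Type u} {Y : Type v} [TopologicalSpace X]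
    [TopologicalSpace Y] (hX : Metalindelof X) {f : X → Y} (hf : ClosedMapping f)
    (H : Set Y) (hH : IsClosed H) {I : Type w} (hI : #I < ℵ_ Ordinal.omega0)
    (𝒲 : I → Set (Set Y)) (ho : ∀ i, ∀ W ∈ 𝒲 i, IsOpen W) (hp : ∀ i, PointCountable (𝒲 i))
    (hc : H ⊆ ⋃₀ ⋃ i, 𝒲 i) : Coverable (⋃ i, 𝒲 i) H := by
  classical
  let O : I → Set Y := fun i => ⋃₀ 𝒲 i
  have hcard : #(range O) < ℵ_ Ordinal.omega0 := by
    have h1 : Cardinal.lift.{w} #(range O) ≤ Cardinal.lift.{v} #I := Cardinal.mk_range_le_lift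
    have h2 : Cardinal.lift.{v} #I < Cardinal.lift.{v} (ℵ_ (Ordinal.omega0.{w})) :=
      Cardinal.lift_lt.mpr hI
    rw [Cardinal.lift_aleph, Ordinal.lift_omega0] at h2
    have h3 : (ℵ_ (Ordinal.omega0.{max v w})) = Cardinal.lift.{w} (ℵ_ (Ordinal.omega0.{v})) := by
      rw [Cardinal.lift_aleph, Ordinal.lift_omega0]
    rw [h3] at h2
    exact Cardinal.lift_lt.mp (lt_of_le_of_lt h1 h2)
  have hg : ∀ S : range O, ∃ i, O i = S.1 := fun S => S.2
  choose g hg using hg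
  refine (coverable_families' hX hf H hH hcard (fun S => 𝒲 (g S)) (fun S => ho _)
    (fun S => hp _) ?_).mono_refines ?_
  · intro y hy
    obtain ⟨W, hW, hyW⟩ := hc hy
    obtain ⟨i, hi⟩ := mem_iUnion.mp hW
    have h1 : y ∈ O (g ⟨O i, i, rfl⟩) := by
      rw [hg]
      exact ⟨W, hi, hyW⟩
    obtain ⟨W', hW', hyW'⟩ := h1
    exact ⟨W', mem_iUnion.mpr ⟨_, hW'⟩, hyW'⟩
  · intro V hV
    obtain ⟨S, hS⟩ := mem_iUnion.mp hV
    exact ⟨V, mem_iUnion.mpr ⟨_, hS⟩, subset_rfl⟩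

end Pool.Agent.MP_e848aa_gt.Closed
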