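import Pool.Agent.MP_e848aa_gt.Closed.Fcl
import Pool.Agent.MP_e848aa_gt.Main

/-!
Points whose fibre needs uncountably many members of a point-countable family form a P-space,
under the descending chain condition for the index set.
-/

namespace Pool.Agent.MP_e848aa_gt.Closed

open Set Cardinal
open Pool.Agent.MP_e848aa_gt.FreeSet

universe u v w

/-- A selection of nonempty parts of the fibres which is as good as the full fibres of a closed
mapping. -/
structure FibreSel {X : Type u} {Y : Type v} [TopologicalSpace X] [TopologicalSpace Y]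
    (f : X → Y) (T : Y → Set X) : Prop where
  cont : Continuous f
  ne : ∀ y, (T y).Nonempty
  fib : ∀ y, ∀ x ∈ T y, f x = y
  op : ∀ W : Set X, IsOpen W → IsOpen {y | T y ⊆ W}

theorem fibreSel_fibres {X : Type u} {Y : Type v} [TopologicalSpace X] [TopologicalSpace Y]
    {f : X → Y} (hf : ClosedMapping f) : FibreSel f (fun y => f ⁻¹' {y}) :=
  ⟨hf.continuous, fun y => hf.surjective y, fun _ _ hx => hx,
    fun _ hW => isOpen_kern hf.isClosedMap hW⟩

/-- The neighbourhood lemma. -/
theorem exists_pnbhd {X : Type u} {Y : Type v} [TopologicalSpace X] [TopologicalSpace Y]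
    {f : X → Y} {T : Y → Set X} (hT : FibreSel f T) {I : Type w} (F : Finset I → Set I)
    (hF : ∀ A, (F A).Countable) (hdcc : DCCof F) (V : I → Set X) (hVo : ∀ i, IsOpen (V i))
    (hVc : ∀ x, {i | x ∈ V i}.Countable) (y : Y) (hy : T y ⊆ ⋃ i, V i) (E : ℕ → Set Y)
    (hE : ∀ n, IsOpen (E n)) (hEy : ∀ n, y ∈ E n) :
    ∃ N, IsOpen N ∧ y ∈ N ∧ ∀ z ∈ N, (∀ P : Set I, P.Countable → ¬ T z ⊆ ⋃ i ∈ P, V i) →
      ∀ n, z ∈ E n := by
  classical
  have hwf : WellFounded (Ext F (Set.univ : Set I)) := wf_ext hdcc _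
  -- the tree of open sets
  have hG : ∃ G : List I → Set Y, ∀ r, G r = E r.length ∩
      {z | T z ⊆ ⋃ i, V i ∩ {x | RFree F (i :: r) ∅ → f x ∈ G (i :: r)}} := by
    let G : List I → Set Y := hwf.fix (fun r rec => E r.length ∩
      {z | T z ⊆ ⋃ i, V i ∩ {x | ∀ h : RFree F (i :: r) ∅, f x ∈
        rec (i :: r) ⟨i, trivial, rfl, h⟩}})
    refine ⟨G, fun r => ?_⟩
    show hwf.fix _ r = _
    rw [hwf.fix_eq]
  obtain ⟨G, hG⟩ := hG
  have hGo : ∀ r, IsOpen (G r) ∧ y ∈ G r := by
    intro r
    induction r using hwf.induction with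
    | _ r ih =>
    rw [hG]
    refine ⟨(hE _).inter (hT.op _ (isOpen_iUnion fun i => ?_)), hEy _, ?_⟩
    · by_cases h : RFree F (i :: r) ∅
      · have h1 : {x | RFree F (i :: r) ∅ → f x ∈ G (i :: r)} = f ⁻¹' (G (i :: r)) := by
          ext x
          exact ⟨fun hx => hx h, fun hx _ => hx⟩
        rw [h1]
        exact (hVo i).inter ((ih (i :: r) ⟨i, trivial, rfl, h⟩).1.preimage hT.cont)
      · have h1 : {x | RFree F (i :: r) ∅ → f x ∈ G (i :: r)} = Set.univ := by
          ext x
          exact ⟨fun _ => trivial, fun _ h' => absurd h' h⟩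
        rw [h1, inter_univ]
        exact hVo i
    · intro x hx
      obtain ⟨i, hi⟩ := mem_iUnion.mp (hy hx)
      refine mem_iUnion.mpr ⟨i, hi, fun h => ?_⟩
      rw [hT.fib y x hx]
      exact (ih (i :: r) ⟨i, trivial, rfl, h⟩).2
  refine ⟨G [], (hGo []).1, (hGo []).2, fun z hz hzV => ?_⟩
  -- the sequence of points of the fibre of `z`
  have hpick : ∀ C : Set I, C.Countable → ∃ x ∈ T z, ∀ i ∈ C, x ∉ V i := by
    intro C hC
    by_contra hcon
    push Not at hcon
    refine hzV C hC fun x hx => ?_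
    obtain ⟨i, hi, hxi⟩ := hcon x hx
    exact mem_biUnion hi hxi
  have hXne : Nonempty X := ⟨(hT.ne y).some⟩
  choose! p hp1 hp2 using hpick
  let nxt : Set I → Set I := fun C => fcl F (C ∪ {i | p C ∈ V i})
  let C : ℕ → Set I := fun n => nxt^[n] (fcl F ∅)
  have hCs : ∀ n, C (n + 1) = nxt (C n) := fun n => Function.iterate_succ_apply' _ _ _
  have hC : ∀ n, (C n).Countable ∧ FClosed F (C n) := by
    intro n
    induction n with
    | zero => exact ⟨countable_fcl hF countable_empty, fclosed_fcl _⟩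
    | succ n ih =>
      rw [hCs]
      exact ⟨countable_fcl hF (ih.1.union (hVc _)), fclosed_fcl _⟩
  have hCm : ∀ n, C n ⊆ C (n + 1) := by
    intro n
    rw [hCs]
    exact subset_union_left.trans (subset_fcl _)
  have key : ∀ m r, RFree F r (C m) → z ∈ G r → z ∈ E (r.length + m) := by
    intro m
    induction m with
    | zero =>
      intro r _ hr
      rw [hG] at hr
      exact hr.1
    | succ m ih =>
      intro r hr1 hr2
      rw [hG] at hr2
      obtain ⟨i, hi1, hi2⟩ := mem_iUnion.mp (hr2.2 (hp1 (C m) (hC m).1))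
      have h1 : i ∉ C m := fun h => hp2 (C m) (hC m).1 i h hi1
      have h2 : RFree F (i :: r) (C m) := by
        refine ⟨?_, RFree.mono (insert_subset ?_ (hCm m)) hr1⟩
        · rw [fcl_eq (hC m).2]
          exact h1
        · rw [hCs]
          exact subset_fcl _ (Or.inr hi1)
      have h3 : z ∈ G (i :: r) := by
        have h4 := hi2 (RFree.mono (empty_subset _) h2)
        rwa [hT.fib z _ (hp1 (C m) (hC m).1)] at h4
      have h5 := ih (i :: r) h2 h3
      rw [List.length_cons] at h5
      rw [show r.length + (m + 1) = r.length + 1 + m by omega]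
      exact h5
  intro n
  have h1 := key n [] trivial hz
  rw [List.length_nil, zero_add] at h1
  exact h1

end Pool.Agent.MP_e848aa_gt.Closed
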