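import Pool.Agent.MP_e848aa_gt.Closed.PNbhd
import Pool.Agent.MP_e848aa_gt.NoetherCover

/-!
Closed subsets of the range which are P-spaces: covers with fewer than aleph omega members.
-/

namespace Pool.Agent.MP_e848aa_gt.Closed

open Set Cardinal
open Pool.Agent.MP_e848aa_gt.FreeSet

universe u v w

/-- From a set of open sets to an indexed family. -/
theorem Coverable.shrink {Y : Type v} [TopologicalSpace Y] {A : Type w} {O : A → Set Y}
    {H : Set Y} (h : Coverable (range O) H) :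
    ∃ U : A → Set Y, (∀ a, IsOpen (U a)) ∧ (∀ a, U a ⊆ O a) ∧ (∀ y ∈ H, ∃ a, y ∈ U a) ∧
      ∀ y, {a | y ∈ U a}.Countable := by
  classical
  obtain ⟨𝒱, h1, h2, h3, h4⟩ := h
  have h2' : ∀ V : 𝒱, ∃ a, V.1 ⊆ O a := by
    intro V
    obtain ⟨_, ⟨a, rfl⟩, ha⟩ := h2 V.1 V.2
    exact ⟨a, ha⟩
  choose g hg using h2'
  refine ⟨fun a => ⋃ (V : 𝒱) (_ : g V = a), V.1, ?_, ?_, ?_, ?_⟩
  · intro a
    exact isOpen_iUnion fun V => isOpen_iUnion fun _ => h1 V.1 V.2
  · intro a x hx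
    simp only [mem_iUnion] at hx
    obtain ⟨V, hV, hx⟩ := hx
    rw [← hV]
    exact hg V hx
  · intro y hy
    obtain ⟨V, hV, hyV⟩ := h4 hy
    refine ⟨g ⟨V, hV⟩, ?_⟩
    simp only [mem_iUnion]
    exact ⟨⟨V, hV⟩, rfl, hyV⟩
  · intro y
    have hcount : {V : 𝒱 | y ∈ V.1}.Countable := by
      refine ((h3 y).preimage_of_injOn (f := fun V : 𝒱 => V.1)
        Subtype.val_injective.injOn).mono ?_
      intro V hV
      exact ⟨V.2, hV⟩
    refine (hcount.image g).mono ?_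
    intro a ha
    simp only [mem_ofPred_eq, mem_iUnion] at ha
    obtain ⟨V, hV, hx⟩ := ha
    exact ⟨V, hx, hV⟩

/-- Closed subspaces. -/
theorem metalindelof_closed_subspace {X : Type u} [TopologicalSpace X] (hX : Metalindelof X)
    (K : Set X) (hK : IsClosed K) : Metalindelof K := by
  classical
  intro 𝒰 h𝒰
  have hG : ∀ U : 𝒰, ∃ G : Set X, IsOpen G ∧ Subtype.val ⁻¹' G = U.1 := fun U =>
    isOpen_induced_iff.mp (h𝒰.1 U.1 U.2)
  choose G hGo hGU using hG
  obtain ⟨V, v1, v2, v3, v4⟩ := hX.shrinkOn (ι := 𝒰) G hGo K hK (by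
    intro x hx
    have h1 : (⟨x, hx⟩ : K) ∈ ⋃₀ 𝒰 := by rw [h𝒰.2]; trivial
    obtain ⟨U, hU, hxU⟩ := h1
    refine ⟨⟨U, hU⟩, ?_⟩
    have h2 : (⟨x, hx⟩ : K) ∈ Subtype.val ⁻¹' G ⟨U, hU⟩ := by rw [hGU]; exact hxU
    exact h2)
  refine hasPCR_of_coverable (coverable_of_indexed (ι := 𝒰)
    (fun U => (Subtype.val ⁻¹' V U : Set K)) (fun U => (v1 U).preimage continuous_subtype_val)
    (fun U => ⟨U.1, U.2, ?_⟩) (fun x _ => ?_) (fun x => v4 x.1))
  · rw [← hGU U]
    exact preimage_mono (v2 U)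
  · exact v3 x.1 x.2

/-- Restriction of a closed mapping to the preimage of a subset. -/
theorem closedMapping_restrict {X : Type u} {Y : Type v} [TopologicalSpace X]
    [TopologicalSpace Y] {f : X → Y} (hf : ClosedMapping f) (H : Set Y) :
    ClosedMapping (H.restrictPreimage f) := by
  refine ⟨hf.continuous.restrictPreimage, ?_, hf.isClosedMap.restrictPreimage H⟩
  exact H.restrictPreimage_surjective hf.surjective

/-- `H` is a P-space in the relative topology. -/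
def RelP {Y : Type v} [TopologicalSpace Y] (H : Set Y) : Prop :=
  ∀ y ∈ H, ∀ E : ℕ → Set Y, (∀ n, IsOpen (E n)) → (∀ n, y ∈ E n) →
    ∃ N, IsOpen N ∧ y ∈ N ∧ ∀ z ∈ N, z ∈ H → ∀ n, z ∈ E n

theorem RelP.isPPoint {Y : Type v} [TopologicalSpace Y] {H : Set Y} (hP : RelP H) (y : H) :
    IsPPoint y := by
  intro G hG
  have h1 : ∀ n, ∃ E : Set Y, IsOpen E ∧ y.1 ∈ E ∧ Subtype.val ⁻¹' E ⊆ G n := by
    intro n
    obtain ⟨O, hO, hOo, hyO⟩ := mem_nhds_iff.mp (hG n)
    obtain ⟨E, hE, rfl⟩ := isOpen_induced_iff.mp hOo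
    exact ⟨E, hE, hyO, hO⟩
  choose E hE1 hE2 hE3 using h1
  obtain ⟨N, hN1, hN2, hN3⟩ := hP y.1 y.2 E hE1 hE2
  rw [mem_nhds_iff]
  refine ⟨Subtype.val ⁻¹' N, ?_, hN1.preimage continuous_subtype_val, hN2⟩
  intro z hz
  exact mem_iInter.mpr fun n => hE3 n (hN3 z.1 hz z.2 n)

theorem exists_refinement_on_pset {X : Type u} {Y : Type v} [TopologicalSpace X]
    [TopologicalSpace Y] (hX : Metalindelof X) {f : X → Y} (hf : ClosedMapping f)
    (H : Set Y) (hH : IsClosed H) (hP : RelP H) {A : Type v} (hA : #A < ℵ_ Ordinal.omega0)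
    (O : A → Set Y) (hO : ∀ a, IsOpen (O a)) (hOc : ∀ y ∈ H, ∃ a, y ∈ O a) :
    ∃ U : A → Set Y, (∀ a, IsOpen (U a)) ∧ (∀ a, U a ⊆ O a) ∧ (∀ y ∈ H, ∃ a, y ∈ U a) ∧
      ∀ y ∈ H, {a | y ∈ U a}.Countable := by
  classical
  have hX' : Metalindelof (f ⁻¹' H) :=
    metalindelof_closed_subspace hX _ (hH.preimage hf.continuous)
  have hg := closedMapping_restrict hf H
  let O' : A → Set H := fun a => Subtype.val ⁻¹' O a
  have hO' : ∀ a, IsOpen (O' a) := fun a => (hO a).preimage continuous_subtype_val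
  have hcard : #(range O') < ℵ_ Ordinal.omega0 := lt_of_le_of_lt Cardinal.mk_range_le hA
  have h1 := coverable_of_coverStat (range O') (by rintro _ ⟨a, rfl⟩; exact hO' a) Set.univ
    isClosed_univ (by
      intro y _
      obtain ⟨a, ha⟩ := hOc y.1 y.2
      exact ⟨_, ⟨a, rfl⟩, ha⟩)
    (coverStat_of_lt_aleph_omega hX' hg _ (by rw [Cardinal.card_ord]; exact hcard))
  obtain ⟨U', u1, u2, u3, u4⟩ := Coverable.shrink h1
  have hG : ∀ a, ∃ G : Set Y, IsOpen G ∧ Subtype.val ⁻¹' G = U' a := fun a =>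
    isOpen_induced_iff.mp (u1 a)
  choose G hGo hGU using hG
  refine ⟨fun a => O a ∩ G a, fun a => (hO a).inter (hGo a), fun a => inter_subset_left, ?_, ?_⟩
  · intro y hy
    obtain ⟨a, ha⟩ := u3 ⟨y, hy⟩ ⟨trivial, hP.isPPoint _⟩
    refine ⟨a, u2 a ha, ?_⟩
    rw [← hGU a] at ha
    exact ha
  · intro y hy
    refine (u4 ⟨y, hy⟩).mono ?_
    intro a ha
    show (⟨y, hy⟩ : H) ∈ U' a
    rw [← hGU a]
    exact ha.2

/-- Closed P-subspaces of the target, and covers with fewer than aleph omega members. -/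
theorem coverable_of_relP {X : Type u} {Y : Type v} [TopologicalSpace X]
    [TopologicalSpace Y] (hX : Metalindelof X) {f : X → Y} (hf : ClosedMapping f)
    (H : Set Y) (hH : IsClosed H) (hP : RelP H) {A : Type v} (hA : #A < ℵ_ Ordinal.omega0)
    (U : A → Set Y) (hU : ∀ a, IsOpen (U a)) (hUc : ∀ y ∈ H, ∃ a, y ∈ U a) :
    Coverable (range U) H := by
  classical
  rcases H.eq_empty_or_nonempty with rfl | ⟨y₀, hy₀⟩
  · exact ⟨∅, by simp, fun V hV => by simp at hV, fun y => by simp, by simp⟩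
  obtain ⟨a₀, -⟩ := hUc y₀ hy₀
  have hne : Nonempty A := ⟨a₀⟩
  obtain ⟨B₀, R, hB₀, hR, hdcc⟩ := exists_noether' A hA
  obtain ⟨c, hcc, hcof⟩ := exists_cofinal_map A hA
  refine coverable_of_rdcc hX hf.continuous (fun y => f ⁻¹' {y})
    (fun y => hf.surjective y) (fun y x hx => hx)
    (fun W hW => isOpen_kern hf.isClosedMap hW) H hH B₀ R hB₀ hR hdcc c hcc hcof (by
      intro O hO hOc
      obtain ⟨U', u1, u2, u3, u4⟩ := exists_refinement_on_pset hX hf H hH hP hA O hO hOc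
      refine ⟨U', u1, u2, u3, ?_⟩
      intro y hy W _ hWU hWc
      refine ⟨{a | y ∈ U' a}, u4 y hy, ?_⟩
      intro x hx
      obtain ⟨a, ha⟩ := mem_iUnion.mp (hWc hx)
      have hx' : f x = y := hx
      refine mem_biUnion ?_ ha
      have := hWU a ha
      rw [mem_preimage, hx'] at this
      exact this) U hU hUc

end Pool.Agent.MP_e848aa_gt.Closed
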